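import Pool.Agent.Lib.MP_359fef_co_h47.GL1d
import Pool.Agent.Lib.MP_359fef_co_h56.Step0

/-!
# GL1, part e: the operator in terms of functionals
-/

namespace Pool.Agent.MP_359fef_co.GL1

open Finset Matrix Module GL2

universe u

variable {F : Type u} [Field F] [Fintype F] {n : ℕ}

omit [Fintype F] in
theorem NN_eq (g : Matrix (Fin n) (Fin n) F) (k : ℕ) : NN k g = (NE g.mulVecLin k : ℚ) := rfl

theorem cu_transpose (X : Matrix (Fin n) (Fin n) F) : cu Xᵀ = cu X := by
  by_cases h : ∃ w ψ, X = vecMulVec w ψ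
  · by_cases h0 : X = 0
    · rw [h0, transpose_zero]
    · obtain ⟨w, ψ, rfl⟩ := h
      have h1 : (vecMulVec w ψ)ᵀ = vecMulVec ψ w := by
        ext i j
        simp [vecMulVec_apply, mul_comm]
      rw [h1, cu_rank1 h0, cu_rank1]
      intro h2
      apply h0
      rw [← transpose_eq_zero, h1, h2]
  · rw [cu_else h, cu_else]
    rintro ⟨w, ψ, h1⟩
    apply h
    refine ⟨ψ, w, ?_⟩
    rw [← transpose_transpose X, h1]
    ext i j
    simp [vecMulVec_apply, mul_comm]

omit [Fintype F] in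
theorem det_pert (c : Matrix (Fin n) (Fin n) F) (u v : Fin n → F) :
    (c + vecMulVec (c *ᵥ u) v).det = (1 + v ⬝ᵥ u) * c.det := by
  have h1 : c + vecMulVec (c *ᵥ u) v = c * (1 + vecMulVec u v) := by
    rw [Matrix.mul_add, Matrix.mul_one, mul_vecMulVec]
  rw [h1, det_mul, vecMulVec_eq Unit, det_one_add_replicateCol_mul_replicateRow, mul_comm]

open Classical in
/-- for fixed `v ≠ 0` -/
theorem sum_fixed {a : F} (ha : a ≠ 0) {c : Matrix (Fin n) (Fin n) F} (hc : InGL c)
    {v : Fin n → F} (hv : v ≠ 0) (f : Matrix (Fin n) (Fin n) F → ℚ) :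
    ∑ g ∈ (univ.filter (fun g : Matrix (Fin n) (Fin n) F => InGL g ∧ g.det = a * c.det)).filter
      (fun g => ∃ w, (g - c)ᵀ = vecMulVec v w), f g =
    ∑ u ∈ univ.filter (fun u : Fin n → F => v ⬝ᵥ u = a - 1), f (c + vecMulVec (c *ᵥ u) v) := by
  symm
  have hcd : c.det ≠ 0 := hc.ne_zero
  refine Finset.sum_bij (fun u _ => c + vecMulVec (c *ᵥ u) v) ?_ ?_ ?_ (fun u _ => rfl)
  · intro u hu
    rw [mem_filter] at hu
    rw [mem_filter, mem_filter]
    have hd : (c + vecMulVec (c *ᵥ u) v).det = a * c.det := by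
      rw [det_pert, hu.2]; ring
    refine ⟨⟨mem_univ _, ?_, hd⟩, c *ᵥ u, ?_⟩
    · unfold InGL
      rw [hd]
      exact (mul_ne_zero ha hcd).isUnit
    · rw [add_sub_cancel_left]
      ext i j
      simp [vecMulVec_apply, mul_comm]
  · intro u _ u' _ h
    obtain ⟨k, hk⟩ := Function.ne_iff.1 hv
    have h1 : c *ᵥ u = c *ᵥ u' := by
      funext i
      have h' : vecMulVec (c *ᵥ u) v = vecMulVec (c *ᵥ u') v := add_left_cancel h
      have h2 := congrFun (congrFun h' i) k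
      rw [vecMulVec_apply, vecMulVec_apply] at h2
      exact mul_right_cancel₀ hk h2
    have h3 : c⁻¹ *ᵥ (c *ᵥ u) = c⁻¹ *ᵥ (c *ᵥ u') := by rw [h1]
    rwa [mulVec_mulVec, mulVec_mulVec, nonsing_inv_mul _ hc, one_mulVec, one_mulVec] at h3
  · intro g hg
    rw [mem_filter, mem_filter] at hg
    obtain ⟨⟨_, _, hg2⟩, w, hw⟩ := hg
    have h1 : g = c + vecMulVec (c *ᵥ (c⁻¹ *ᵥ w)) v := by
      rw [mulVec_mulVec, mul_nonsing_inv _ hc, one_mulVec, ← sub_eq_iff_eq_add',
        ← transpose_transpose (g - c), hw]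
      ext i j
      simp [vecMulVec_apply, mul_comm]
    refine ⟨c⁻¹ *ᵥ w, ?_, h1.symm⟩
    rw [mem_filter]
    refine ⟨mem_univ _, ?_⟩
    rw [h1, det_pert] at hg2
    have h2 := mul_right_cancel₀ hcd hg2
    rw [← h2]; ring

open Classical in
/-- the operator as a sum over pairs (functional, vector) -/
theorem op_eq' (a : F) (ha : a ≠ 0) (f : Matrix (Fin n) (Fin n) F → ℚ)
    (c : Matrix (Fin n) (Fin n) F) (hc : InGL c) :
    ((Fintype.card F : ℚ) - 1) * op InGL (Fintype.card F) a f c =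
      ∑ v ∈ univ.filter (fun v : Fin n → F => v ≠ 0),
        ∑ u ∈ univ.filter (fun u : Fin n → F => v ⬝ᵥ u = a - 1),
          f (c + vecMulVec (c *ᵥ u) v) := by
  rw [op_eq a ha f c hc]
  have h1 : ∀ g : Matrix (Fin n) (Fin n) F, (cu (g - c) : ℚ) * f g =
      ∑ v ∈ univ.filter (fun v : Fin n → F => v ≠ 0), if ∃ w, (g - c)ᵀ = vecMulVec v w
        then f g else 0 := by
    intro g
    rw [← cu_transpose, cu, ← Finset.sum_filter, Finset.filter_filter, Finset.sum_const,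
      nsmul_eq_mul]
  rw [Finset.sum_congr rfl (fun g _ => h1 g), Finset.sum_comm]
  refine Finset.sum_congr rfl fun v hv => ?_
  rw [← sum_fixed ha hc (Finset.mem_filter.1 hv).2 f, ← Finset.sum_filter]

omit [Fintype F] in
theorem mulVecLin_pert (c : Matrix (Fin n) (Fin n) F) (u v : Fin n → F) :
    (c + vecMulVec (c *ᵥ u) v).mulVecLin =
      c.mulVecLin + (dotProductEquiv F (Fin n) v).smulRight (c.mulVecLin u) := by
  apply LinearMap.ext
  intro x
  rw [mulVecLin_apply, add_mulVec, vecMulVec_mulVec, LinearMap.add_apply,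
    LinearMap.smulRight_apply]
  congr 1
  ext i
  simp [mul_comm]

open Classical in
theorem card_pairs (a : F) (c : Matrix (Fin n) (Fin n) F) (v : Fin n → F) (k : ℕ) :
    ∑ u ∈ univ.filter (fun u : Fin n → F => v ⬝ᵥ u = a - 1),
      NN k (c + vecMulVec (c *ᵥ u) v) =
    (Nat.card {z : (Fin n → F) × (Fin k → (Fin n → F)) //
      (dotProductEquiv F (Fin n) v) z.1 = a - 1 ∧
        GenE (c.mulVecLin + (dotProductEquiv F (Fin n) v).smulRight (c.mulVecLin z.1)) z.2} :
        ℚ) := by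
  have e1 : Nat.card {z : (Fin n → F) × (Fin k → (Fin n → F)) //
      (dotProductEquiv F (Fin n) v) z.1 = a - 1 ∧
        GenE (c.mulVecLin + (dotProductEquiv F (Fin n) v).smulRight (c.mulVecLin z.1)) z.2} =
      Nat.card ((u : {u : Fin n → F // v ⬝ᵥ u = a - 1}) × {y : Fin k → (Fin n → F) //
        GenE (c.mulVecLin + (dotProductEquiv F (Fin n) v).smulRight (c.mulVecLin u.1)) y}) :=
    Nat.card_congr
      { toFun := fun z => ⟨⟨z.1.1, z.2.1⟩, ⟨z.1.2, z.2.2⟩⟩
        invFun := fun s => ⟨(s.1.1, s.2.1), s.1.2, s.2.2⟩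
        left_inv := fun z => rfl
        right_inv := fun s => rfl }
  rw [e1, Nat.card_sigma, Nat.cast_sum, ← Finset.sum_subtype_eq_sum_filter]
  rw [Finset.subtype_univ]
  refine Finset.sum_congr rfl fun u _ => ?_
  rw [NN_eq, NE, mulVecLin_pert]

/-- part (c): assembly -/
theorem star_of (g : Matrix (Fin n) (Fin n) F) (hg : InGL g) (a : F) (ha : a ≠ 0) (k : ℕ)
    [Fintype ((Fin n → F) →ₗ[F] F)]
    (b1 : ∑ φ : (Fin n → F) →ₗ[F] F,
      (Nat.card F : ℚ) ^ (k * finrank F ((Fin n → F) ⧸ DD g.mulVecLin φ)) *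
        NS g.mulVecLin (DD g.mulVecLin φ) k = NE g.mulVecLin (k + 1))
    (b2 : ∑ φ : (Fin n → F) →ₗ[F] F, (Nat.card (DD g.mulVecLin φ) : ℚ) *
        NS g.mulVecLin (DD g.mulVecLin φ) k = NE g.mulVecLin (k + 1)) :
    ((Fintype.card F : ℚ) ^ (k + 1) - 1) * op InGL (Fintype.card F) a (NN k) g =
      ((Fintype.card F : ℚ) ^ k - 1) * qInt (Fintype.card F) n * NN (k + 1) g := by
  classical
  have hq : ((Fintype.card F : ℚ) - 1) ≠ 0 := (sub_pos.2 one_lt_q).ne'
  have hT : Function.Bijective g.mulVecLin := by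
    have hu : Function.Bijective g.mulVec := by
      constructor
      · intro x y h
        have h3 : g⁻¹ *ᵥ (g *ᵥ x) = g⁻¹ *ᵥ (g *ᵥ y) := by
          have h' : g *ᵥ x = g *ᵥ y := h
          rw [h']
        rwa [mulVec_mulVec, mulVec_mulVec, nonsing_inv_mul _ hg, one_mulVec, one_mulVec] at h3
      · intro x
        refine ⟨g⁻¹ *ᵥ x, ?_⟩
        rw [mulVec_mulVec, mul_nonsing_inv _ hg, one_mulVec]
    exact hu
  have h1 := sum_pert hT a ha k b1 b2
  rw [finrank_fin_fun, Nat.card_eq_fintype_card] at h1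
  have h2 : ∑ v ∈ univ.filter (fun v : Fin n → F => v ≠ 0),
        ∑ u ∈ univ.filter (fun u : Fin n → F => v ⬝ᵥ u = a - 1),
          NN k (g + vecMulVec (g *ᵥ u) v) =
      ∑ φ ∈ Finset.univ.filter (fun φ : (Fin n → F) →ₗ[F] F => φ ≠ 0),
      (Nat.card {z : (Fin n → F) × (Fin k → (Fin n → F)) // φ z.1 = a - 1 ∧
        GenE (g.mulVecLin + φ.smulRight (g.mulVecLin z.1)) z.2} : ℚ) := by
    refine Finset.sum_equiv (dotProductEquiv F (Fin n)).toEquiv ?_ ?_
    · intro v
      rw [mem_filter, mem_filter]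
      simp
    · intro v _
      exact card_pairs a g v k
  apply mul_left_cancel₀ hq
  have h3 := qInt_mul (Fintype.card F : ℚ) n
  rw [mul_left_comm, op_eq' a ha _ g hg, h2, h1, ← h3, NN_eq]
  ring

end Pool.Agent.MP_359fef_co.GL1
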