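import Mathlib

/-!
# GL1, part a: counting coprime tuples of polynomials with prescribed constant term
-/

namespace Pool.Agent.MP_359fef_co.GL1

open Polynomial

variable {F : Type*} [Field F] {k : ℕ}

/-- `P` and the `y i` generate the unit ideal -/
def Unim (P : F[X]) (y : Fin k → F[X]) : Prop :=
  ∃ (c : Fin k → F[X]) (d : F[X]), ∑ i, c i * y i + d * P = 1

/-- all pairs `(P, y)`, `P` monic of degree `m` with constant term `c`, `deg y < m` -/
def XX (F : Type*) [Field F] (k m : ℕ) (c : F) : Set (F[X] × (Fin k → F[X])) :=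
  {z | z.1.Monic ∧ z.1.natDegree = m ∧ z.1.eval 0 = c ∧ ∀ i, (z.2 i).degree < (m : WithBot ℕ)}

/-- the coprime pairs -/
def UU (F : Type*) [Field F] (k m : ℕ) (c : F) : Set (F[X] × (Fin k → F[X])) :=
  {z | z ∈ XX F k m c ∧ Unim z.1 z.2}

/-- monic polynomials of degree `m` with constant term `c` -/
def MM (F : Type*) [Field F] (m : ℕ) (c : F) : Set F[X] :=
  {G | G.Monic ∧ G.natDegree = m ∧ G.eval 0 = c}

theorem card_degreeLT (F : Type*) [Field F] (m : ℕ) :
    Nat.card (degreeLT F m) = Nat.card F ^ m := by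
  rw [Nat.card_congr (degreeLTEquiv F m).toEquiv, Nat.card_fun, Nat.card_fin]

theorem natDegree_X_pow_add' {p : F[X]} {n : ℕ} (h : p.degree < (n : WithBot ℕ)) :
    (X ^ n + p).natDegree = n := by
  apply natDegree_eq_of_degree_eq_some
  rw [degree_add_eq_left_of_degree_lt (by rwa [degree_X_pow]), degree_X_pow]

/-- parametrisation of `MM` -/
noncomputable def mmEquiv (F : Type*) [Field F] (m : ℕ) (c : F) :
    degreeLT F m ≃ MM F (m + 1) c where
  toFun r := ⟨X ^ (m + 1) + (X * (r : F[X]) + C c), by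
    have hr : (r : F[X]).degree < (m : WithBot ℕ) := mem_degreeLT.1 r.2
    have h1 : (X * (r : F[X]) + C c).degree < ((m + 1 : ℕ) : WithBot ℕ) := by
      refine lt_of_le_of_lt (degree_add_le _ _) (max_lt ?_ ?_)
      · rw [degree_mul, degree_X]
        by_cases h0 : (r : F[X]) = 0
        · rw [h0]; simp
        · rw [degree_eq_natDegree h0] at hr ⊢
          have : (r : F[X]).natDegree < m := by exact_mod_cast hr
          have h2 : (1 : WithBot ℕ) + ((r : F[X]).natDegree : WithBot ℕ) =
            ((1 + (r : F[X]).natDegree : ℕ) : WithBot ℕ) := by push_cast; rfl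
          rw [h2]
          exact_mod_cast (by omega : 1 + (r : F[X]).natDegree < m + 1)
      · refine lt_of_le_of_lt degree_C_le ?_
        exact_mod_cast Nat.succ_pos m
    exact ⟨monic_X_pow_add h1, natDegree_X_pow_add' h1, by simp⟩⟩
  invFun G := ⟨divX (G : F[X]) - X ^ m, by
    obtain ⟨G, h1, h2, h3⟩ := G
    rw [mem_degreeLT]
    have hd : (divX G).natDegree = m := by rw [natDegree_divX_eq_natDegree_tsub_one, h2]; rfl
    have hc : (divX G).coeff m = 1 := by
      rw [coeff_divX, ← h2]; exact h1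
    have hm : (divX G).Monic := by
      rw [Monic, leadingCoeff, hd, hc]
    have : (X ^ m : F[X]).Monic := monic_X_pow m
    have h4 : (divX G).degree = (X ^ m : F[X]).degree := by
      rw [degree_X_pow, degree_eq_natDegree hm.ne_zero, hd]
    have h5 := degree_sub_lt_left h4 hm.ne_zero (by rw [hm.leadingCoeff, this.leadingCoeff])
    rwa [degree_eq_natDegree hm.ne_zero, hd] at h5⟩
  left_inv r := by
    apply Subtype.ext
    ext i
    simp only [coeff_sub, coeff_divX, coeff_add, coeff_X_pow, coeff_X_mul, coeff_C]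
    by_cases h : i = m
    · simp [h]
    · simp [h]
  right_inv G := by
    obtain ⟨G, h1, h2, h3⟩ := G
    apply Subtype.ext
    simp only
    have h4 := divX_mul_X_add G
    have h5 : G.coeff 0 = c := by rw [coeff_zero_eq_eval_zero]; exact h3
    rw [h5] at h4
    conv_rhs => rw [← h4]
    ring

theorem card_MM [Finite F] (m : ℕ) (c : F) : Nat.card (MM F (m + 1) c) = Nat.card F ^ m := by
  rw [← Nat.card_congr (mmEquiv F m c), card_degreeLT]

instance [Finite F] (m : ℕ) : Finite (degreeLT F m) :=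
  Finite.of_equiv _ (degreeLTEquiv F m).toEquiv.symm

theorem mem_MM_zero {c : F} {G : F[X]} : G ∈ MM F 0 c ↔ G = 1 ∧ c = 1 := by
  constructor
  · rintro ⟨h1, h2, h3⟩
    have := h1.natDegree_eq_zero.1 h2
    rw [this] at h3
    simp at h3
    exact ⟨this, h3.symm⟩
  · rintro ⟨rfl, rfl⟩
    exact ⟨monic_one, by simp, by simp⟩

instance finite_MM [Finite F] (m : ℕ) (c : F) : Finite (MM F m c) := by
  cases m with
  | zero =>
    apply Set.Finite.subset (Set.finite_singleton (1 : F[X]))
    intro G hG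
    exact (mem_MM_zero.1 hG).1
  | succ m => exact Finite.of_equiv _ (mmEquiv F m c)

/-- `XX` is a product -/
noncomputable def xxEquiv (F : Type*) [Field F] (k m : ℕ) (c : F) :
    XX F k m c ≃ MM F m c × (Fin k → degreeLT F m) where
  toFun z := (⟨z.1.1, z.2.1, z.2.2.1, z.2.2.2.1⟩, fun i => ⟨z.1.2 i, mem_degreeLT.2 (z.2.2.2.2 i)⟩)
  invFun z := ⟨(z.1.1, fun i => (z.2 i : F[X])), z.1.2.1, z.1.2.2.1, z.1.2.2.2,
    fun i => mem_degreeLT.1 (z.2 i).2⟩
  left_inv z := rfl
  right_inv z := rfl

instance finite_XX [Finite F] (m : ℕ) (c : F) : Finite (XX F k m c) :=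
  Finite.of_equiv _ (xxEquiv F k m c).symm

instance finite_UU [Finite F] (m : ℕ) (c : F) : Finite (UU F k m c) :=
  Finite.of_injective (fun z : UU F k m c => (⟨z.1, z.2.1⟩ : XX F k m c))
    (fun a b h => Subtype.ext (congrArg (fun t : XX F k m c => t.1) h))

theorem card_XX [Finite F] (m : ℕ) (c : F) :
    Nat.card (XX F k (m + 1) c) = Nat.card F ^ m * (Nat.card F ^ (m + 1)) ^ k := by
  rw [Nat.card_congr (xxEquiv F k (m + 1) c), Nat.card_prod, card_MM, Nat.card_fun,
    card_degreeLT, Nat.card_eq_fintype_card (α := Fin k), Fintype.card_fin]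

/-- dividing by the gcd: the elements of `XX` whose gcd is the monic polynomial `G` -/
def fibG (F : Type*) [Field F] (k m : ℕ) (c : F) (G : F[X]) : Set (F[X] × (Fin k → F[X])) :=
  {z | z ∈ XX F k m c ∧ Ideal.span ({z.1} ∪ Set.range z.2) = Ideal.span {G}}

theorem unim_iff (P : F[X]) (y : Fin k → F[X]) :
    Unim P y ↔ Ideal.span ({P} ∪ Set.range y) = ⊤ := by
  rw [Ideal.eq_top_iff_one, Ideal.span_union, Submodule.mem_sup]
  constructor
  · rintro ⟨c, d, h⟩
    refine ⟨d * P, Ideal.mul_mem_left _ _ (Ideal.subset_span rfl), ∑ i, c i * y i,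
      Ideal.sum_mem _ fun i _ => Ideal.mul_mem_left _ _ (Ideal.subset_span ⟨i, rfl⟩), ?_⟩
    rw [add_comm]; exact h
  · rintro ⟨a, ha, b, hb, hab⟩
    obtain ⟨d, rfl⟩ := Ideal.mem_span_singleton'.1 ha
    obtain ⟨c, hc⟩ := (Ideal.mem_span_range_iff_exists_fun).1 hb
    refine ⟨c, d, ?_⟩
    rw [hc, add_comm]; exact hab

/-- the fibre over `G` is a copy of `UU` in smaller degree -/
noncomputable def fibEquiv (F : Type*) [Field F] (k m : ℕ) (c : F) (G : F[X]) (hG : G.Monic)
    (hGm : G.natDegree ≤ m) (hG0 : G.eval 0 ≠ 0) :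
    fibG F k m c G ≃ UU F k (m - G.natDegree) (c / G.eval 0) where
  toFun z := ⟨(z.1.1 /ₘ G, fun i => z.1.2 i /ₘ G), by
    obtain ⟨⟨P, y⟩, ⟨h1, h2, h3, h4⟩, h5⟩ := z
    have hdP : G ∣ P := by
      rw [← Ideal.mem_span_singleton, ← h5]
      exact Ideal.subset_span (Or.inl rfl)
    have hdy : ∀ i, G ∣ y i := fun i => by
      rw [← Ideal.mem_span_singleton, ← h5]
      exact Ideal.subset_span (Or.inr ⟨i, rfl⟩)
    have eP : G * (P /ₘ G) = P := by
      have := modByMonic_add_div P G
      rwa [(modByMonic_eq_zero_iff_dvd hG).2 hdP, zero_add] at this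
    have ey : ∀ i, G * (y i /ₘ G) = y i := fun i => by
      have := modByMonic_add_div (y i) G
      rwa [(modByMonic_eq_zero_iff_dvd hG).2 (hdy i), zero_add] at this
    refine ⟨⟨?_, ?_, ?_, ?_⟩, ?_⟩
    · have := h1
      simp only at this
      rw [← eP] at this
      exact hG.of_mul_monic_left this
    · simp only
      rw [natDegree_divByMonic P hG]
      simp only at h2
      rw [h2]
    · simp only
      rw [eq_div_iff hG0, mul_comm, ← eval_mul, eP]
      exact h3
    · intro i
      simp only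
      by_cases h0 : y i = 0
      · rw [h0, zero_divByMonic, degree_zero]
        exact WithBot.bot_lt_coe _
      · have h0' : y i /ₘ G ≠ 0 := by
          intro h
          rw [← ey i, h, mul_zero] at h0
          exact h0 rfl
        have h6 := h4 i
        simp only at h6
        rw [degree_eq_natDegree h0] at h6
        rw [degree_eq_natDegree h0', natDegree_divByMonic _ hG]
        have h7 : (y i).natDegree < m := by exact_mod_cast h6
        have h8 : G.natDegree ≤ (y i).natDegree := natDegree_le_of_dvd (hdy i) h0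
        exact_mod_cast (by omega : (y i).natDegree - G.natDegree < m - G.natDegree)
    · simp only at h5 ⊢
      have hG1 : G ∈ Ideal.span ({P} ∪ Set.range y) := by
        rw [h5]; exact Ideal.mem_span_singleton_self G
      rw [Ideal.span_union, Submodule.mem_sup] at hG1
      obtain ⟨a, ha, b, hb, hab⟩ := hG1
      obtain ⟨d, rfl⟩ := Ideal.mem_span_singleton'.1 ha
      obtain ⟨cc, hc⟩ := (Ideal.mem_span_range_iff_exists_fun).1 hb
      refine ⟨cc, d, ?_⟩
      apply mul_left_cancel₀ hG.ne_zero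
      rw [mul_one, mul_add, Finset.mul_sum]
      have e1 : ∑ i, G * (cc i * (y i /ₘ G)) = ∑ i, cc i * y i := by
        refine Finset.sum_congr rfl fun i _ => ?_
        conv_rhs => rw [← ey i]
        ring
      have e2 : G * (d * (P /ₘ G)) = d * P := by
        conv_rhs => rw [← eP]
        ring
      rw [e1, e2, hc, add_comm]
      exact hab⟩
  invFun z := ⟨(G * z.1.1, fun i => G * z.1.2 i), by
    obtain ⟨⟨P, y⟩, ⟨h1, h2, h3, h4⟩, h5⟩ := z
    refine ⟨⟨?_, ?_, ?_, ?_⟩, ?_⟩
    · exact hG.mul h1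
    · simp only at h2 ⊢
      rw [hG.natDegree_mul h1, h2]
      omega
    · simp only at h3 ⊢
      rw [eval_mul, h3]
      field_simp
    · intro i
      have h6 := h4 i
      simp only at h6 ⊢
      by_cases h0 : y i = 0
      · rw [h0, mul_zero, degree_zero]
        exact WithBot.bot_lt_coe _
      · rw [degree_eq_natDegree h0] at h6
        rw [degree_eq_natDegree (mul_ne_zero hG.ne_zero h0), natDegree_mul hG.ne_zero h0]
        have h7 : (y i).natDegree < m - G.natDegree := by exact_mod_cast h6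
        exact_mod_cast (by omega : G.natDegree + (y i).natDegree < m)
    · simp only at h5 ⊢
      obtain ⟨cc, d, hcd⟩ := h5
      apply le_antisymm
      · rw [Ideal.span_le]
        rintro x (hx | ⟨i, rfl⟩)
        · rw [Set.mem_singleton_iff] at hx
          rw [hx]
          exact Ideal.mem_span_singleton.2 (dvd_mul_right _ _)
        · exact Ideal.mem_span_singleton.2 (dvd_mul_right _ _)
      · rw [Ideal.span_singleton_le_iff_mem]
        have : G = ∑ i, cc i * (G * y i) + d * (G * P) := by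
          calc G = G * (∑ i, cc i * y i + d * P) := by rw [hcd, mul_one]
            _ = _ := by
              rw [mul_add, Finset.mul_sum]
              congr 1
              · refine Finset.sum_congr rfl fun i _ => ?_
                ring
              · ring
        rw [this]
        refine Ideal.add_mem _ (Ideal.sum_mem _ fun i _ => Ideal.mul_mem_left _ _
          (Ideal.subset_span (Or.inr ⟨i, ?_⟩))) (Ideal.mul_mem_left _ _
          (Ideal.subset_span (Or.inl ?_)))
        · simp only
          rw [← this]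
        · rw [← this]; rfl⟩
  left_inv z := by
    obtain ⟨⟨P, y⟩, ⟨h1, h2, h3, h4⟩, h5⟩ := z
    have hdP : G ∣ P := by
      rw [← Ideal.mem_span_singleton, ← h5]
      exact Ideal.subset_span (Or.inl rfl)
    have hdy : ∀ i, G ∣ y i := fun i => by
      rw [← Ideal.mem_span_singleton, ← h5]
      exact Ideal.subset_span (Or.inr ⟨i, rfl⟩)
    have eP : G * (P /ₘ G) = P := by
      have := modByMonic_add_div P G
      rwa [(modByMonic_eq_zero_iff_dvd hG).2 hdP, zero_add] at this
    have ey : ∀ i, G * (y i /ₘ G) = y i := fun i => by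
      have := modByMonic_add_div (y i) G
      rwa [(modByMonic_eq_zero_iff_dvd hG).2 (hdy i), zero_add] at this
    apply Subtype.ext
    refine Prod.ext ?_ ?_
    · exact eP
    · funext i; exact ey i
  right_inv z := by
    apply Subtype.ext
    refine Prod.ext ?_ ?_
    · exact mul_divByMonic_cancel_left _ hG
    · funext i; exact mul_divByMonic_cancel_left _ hG

theorem exists_gcd (P : F[X]) (hP : P.Monic) (y : Fin k → F[X]) :
    ∃ G : F[X], G.Monic ∧ Ideal.span ({P} ∪ Set.range y) = Ideal.span {G} := by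
  obtain ⟨g, hg⟩ := (IsPrincipalIdealRing.principal (Ideal.span ({P} ∪ Set.range y))).principal
  have hg' : Ideal.span ({P} ∪ Set.range y) = Ideal.span {g} := hg
  have hg0 : g ≠ 0 := by
    rintro rfl
    have : P ∈ Ideal.span ({P} ∪ Set.range y) := Ideal.subset_span (Or.inl rfl)
    rw [hg', Ideal.mem_span_singleton, zero_dvd_iff] at this
    exact hP.ne_zero this
  refine ⟨g * C g.leadingCoeff⁻¹, monic_mul_leadingCoeff_inv hg0, ?_⟩
  rw [hg']
  rw [Ideal.span_singleton_eq_span_singleton]
  have hu : IsUnit (C g.leadingCoeff⁻¹ : F[X]) := by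
    rw [isUnit_C]
    exact (inv_ne_zero (leadingCoeff_ne_zero.2 hg0)).isUnit
  exact (associated_mul_unit_right g _ hu)

theorem gcd_unique {G G' : F[X]} (h : G.Monic) (h' : G'.Monic)
    (he : Ideal.span ({G} : Set F[X]) = Ideal.span {G'}) : G = G' :=
  eq_of_monic_of_associated h h' (Ideal.span_singleton_eq_span_singleton.1 he)

/-- index set of the big decomposition -/
abbrev Idx (F : Type*) [Field F] (m : ℕ) := Fin (m + 1) × {c' : F // c' ≠ 0}

/-- the big map -/
noncomputable def bigMap (F : Type*) [Field F] (k m : ℕ) (c : F)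
    (a : Σ p : Idx F m, MM F p.1 p.2.1 × UU F k (m - p.1) (c / p.2.1)) : XX F k m c :=
  ⟨((fibEquiv F k m c a.2.1.1 a.2.1.2.1 (by
      rw [a.2.1.2.2.1]; exact Nat.lt_succ_iff.1 a.1.1.2) (by
      rw [a.2.1.2.2.2]; exact a.1.2.2)).symm ⟨a.2.2.1, by
        have h1 := a.2.1.2.2.1
        have h2 := a.2.1.2.2.2
        rw [h1, h2]
        exact a.2.2.2⟩).1,
    ((fibEquiv F k m c a.2.1.1 a.2.1.2.1 (by
      rw [a.2.1.2.2.1]; exact Nat.lt_succ_iff.1 a.1.1.2) (by
      rw [a.2.1.2.2.2]; exact a.1.2.2)).symm ⟨a.2.2.1, by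
        have h1 := a.2.1.2.2.1
        have h2 := a.2.1.2.2.2
        rw [h1, h2]
        exact a.2.2.2⟩).2.1⟩

theorem bigMap_bijective (k m : ℕ) (c : F) (hc : c ≠ 0) :
    Function.Bijective (bigMap F k m c) := by
  constructor
  · rintro ⟨⟨⟨j, hj⟩, ⟨c', hc'⟩⟩, ⟨G, hG1, hG2, hG3⟩, ⟨⟨P, y⟩, hU⟩⟩
      ⟨⟨⟨j', hj'⟩, ⟨c'', hc''⟩⟩, ⟨G', hG1', hG2', hG3'⟩, ⟨⟨P', y'⟩, hU'⟩⟩ h
    simp only at hG2 hG3 hG2' hG3'
    subst hG2 hG3 hG2' hG3'
    have hval := congrArg Subtype.val h
    simp only [bigMap] at hval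
    have hval' : (G * P, fun i => G * y i) = (G' * P', fun i => G' * y' i) := hval
    have e1 := congrArg Prod.fst hval'
    have e2 := congrArg Prod.snd hval'
    simp only at e1 e2
    have f1 := ((fibEquiv F k m c G hG1 (Nat.lt_succ_iff.1 hj) hc').symm ⟨(P, y), hU⟩).2.2
    have f2 := ((fibEquiv F k m c G' hG1' (Nat.lt_succ_iff.1 hj') hc'').symm ⟨(P', y'), hU'⟩).2.2
    have f1' : Ideal.span ({G * P} ∪ Set.range (fun i => G * y i)) = Ideal.span {G} := f1
    have f2' : Ideal.span ({G' * P'} ∪ Set.range (fun i => G' * y' i)) = Ideal.span {G'} := f2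
    rw [← e1, ← e2, f1'] at f2'
    have hGG := gcd_unique hG1 hG1' f2'
    subst hGG
    have e3 : P = P' := mul_left_cancel₀ hG1.ne_zero e1
    have e4 : y = y' := by
      funext i
      exact mul_left_cancel₀ hG1.ne_zero (congrFun e2 i)
    subst e3 e4
    rfl
  · rintro ⟨⟨P, y⟩, hz⟩
    obtain ⟨G, hG, hspan⟩ := exists_gcd P hz.1 y
    have hdP : G ∣ P := by
      rw [← Ideal.mem_span_singleton, ← hspan]
      exact Ideal.subset_span (Or.inl rfl)
    have hdeg : G.natDegree ≤ m := by
      have := natDegree_le_of_dvd hdP hz.1.ne_zero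
      have h2 := hz.2.1
      simp only at h2
      omega
    have h0 : G.eval 0 ≠ 0 := by
      intro h
      obtain ⟨P', hP'⟩ := hdP
      have h3 := hz.2.2.1
      simp only at h3
      rw [hP', eval_mul, h, zero_mul] at h3
      exact hc h3.symm
    let z' : fibG F k m c G := ⟨(P, y), hz, hspan⟩
    refine ⟨⟨(⟨G.natDegree, Nat.lt_succ_iff.2 hdeg⟩, ⟨G.eval 0, h0⟩), ⟨G, hG, rfl, rfl⟩,
      fibEquiv F k m c G hG hdeg h0 z'⟩, ?_⟩
    apply Subtype.ext
    have := (fibEquiv F k m c G hG hdeg h0).symm_apply_apply z'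
    have h4 := congrArg Subtype.val this
    exact h4

theorem card_decomp [Fintype F] [DecidableEq F] (k m : ℕ) (c : F) (hc : c ≠ 0) :
    Nat.card (XX F k m c) = ∑ j ∈ Finset.range (m + 1), ∑ c' ∈ Finset.univ.erase (0 : F),
      Nat.card (MM F j c') * Nat.card (UU F k (m - j) (c / c')) := by
  rw [← Nat.card_congr (Equiv.ofBijective _ (bigMap_bijective k m c hc)), Nat.card_sigma]
  rw [Fintype.sum_prod_type, Finset.sum_range]
  refine Finset.sum_congr rfl fun j _ => ?_
  simp only [Nat.card_prod]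
  rw [← Finset.sum_subtype (Finset.univ.erase (0 : F)) (p := fun c' : F => c' ≠ 0)
    (by intro x; simp) (fun c' => Nat.card (MM F j c') * Nat.card (UU F k (m - j) (c / c')))]

open Classical in
theorem card_UU_zero (k : ℕ) (d : F) : Nat.card (UU F k 0 d) = if d = 1 then 1 else 0 := by
  split_ifs with h
  · subst h
    rw [Nat.card_eq_one_iff_exists]
    refine ⟨⟨(1, fun _ => 0), ⟨⟨monic_one, by simp, by simp, by simp⟩, ⟨0, 1, by simp⟩⟩⟩, ?_⟩
    rintro ⟨⟨P, y⟩, ⟨⟨h1, h2, h3, h4⟩, h5⟩⟩
    apply Subtype.ext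
    have e1 : P = 1 := h1.natDegree_eq_zero.1 h2
    have e2 : y = fun _ => 0 := by
      funext i
      have := h4 i
      simp only at this
      by_contra h0
      rw [degree_eq_natDegree h0] at this
      have h6 : (y i).natDegree < 0 := by exact_mod_cast this
      omega
    simp [e1, e2]
  · rw [Nat.card_eq_zero]
    left
    constructor
    rintro ⟨⟨P, y⟩, ⟨⟨h1, h2, h3, h4⟩, h5⟩⟩
    have e1 : P = 1 := h1.natDegree_eq_zero.1 h2
    simp only at h3
    rw [e1] at h3
    simp at h3
    exact h h3.symm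

theorem geom_id (q t : ℚ) (m : ℕ) :
    (t - 1) * ∑ j ∈ Finset.range m, (q - 1) * q ^ j * ((q * t) ^ (m - j) - 1) =
      (q * t - 1) * ((q * t) ^ m * t - q ^ m) - (t - 1) * ((q * t) ^ (m + 1) - 1) := by
  induction m with
  | zero => simp; ring
  | succ m ih =>
    rw [Finset.sum_range_succ']
    have e : ∑ j ∈ Finset.range m, (q - 1) * q ^ (j + 1) * ((q * t) ^ (m + 1 - (j + 1)) - 1) =
        q * ∑ j ∈ Finset.range m, (q - 1) * q ^ j * ((q * t) ^ (m - j) - 1) := by
      rw [Finset.mul_sum]
      refine Finset.sum_congr rfl fun j _ => ?_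
      rw [show m + 1 - (j + 1) = m - j by omega]
      ring
    rw [e, mul_add, mul_left_comm, ih]
    simp only [pow_zero, Nat.sub_zero, mul_one]
    ring

/-- Lemma (C): the number of coprime pairs with prescribed constant term -/
theorem card_UU [Fintype F] (k : ℕ) (m : ℕ) (hm : 1 ≤ m) (c : F) (hc : c ≠ 0) :
    ((Nat.card F : ℚ) ^ (k + 1) - 1) * (Nat.card (UU F k m c) : ℚ) =
      ((Nat.card F : ℚ) ^ k - 1) * ((Nat.card F : ℚ) ^ ((k + 1) * m) - 1) := by
  classical
  induction m using Nat.strong_induction_on generalizing c with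
  | _ m ih =>
    obtain ⟨m, rfl⟩ : ∃ m', m = m' + 1 := ⟨m - 1, by omega⟩
    have h1 := card_decomp k (m + 1) c hc
    rw [card_XX, Finset.sum_range_succ, Finset.sum_range_succ'] at h1
    -- the term `j = 0`
    have t0 : ∑ c' ∈ Finset.univ.erase (0 : F),
        Nat.card (MM F 0 c') * Nat.card (UU F k (m + 1 - 0) (c / c')) =
        Nat.card (UU F k (m + 1) c) := by
      rw [Finset.sum_eq_single (1 : F)]
      · have : Nat.card (MM F 0 (1 : F)) = 1 := by
          rw [Nat.card_eq_one_iff_exists]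
          exact ⟨⟨1, mem_MM_zero.2 ⟨rfl, rfl⟩⟩, fun b => Subtype.ext (mem_MM_zero.1 b.2).1⟩
        rw [this, one_mul, div_one, Nat.sub_zero]
      · intro b _ hb
        have : Nat.card (MM F 0 b) = 0 := by
          rw [Nat.card_eq_zero]
          left
          exact ⟨fun a => hb (mem_MM_zero.1 a.2).2⟩
        rw [this, zero_mul]
      · intro h; simp at h
    -- the term `j = m + 1`
    have t1 : ∑ c' ∈ Finset.univ.erase (0 : F),
        Nat.card (MM F (m + 1) c') * Nat.card (UU F k (m + 1 - (m + 1)) (c / c')) =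
        Nat.card F ^ m := by
      rw [Finset.sum_eq_single c]
      · rw [card_MM, Nat.sub_self, card_UU_zero, div_self hc, if_pos rfl, mul_one]
      · intro b hb hbc
        have hb0 : b ≠ 0 := by simpa using hb
        rw [Nat.sub_self, card_UU_zero, if_neg, mul_zero]
        intro h
        rw [div_eq_one_iff_eq hb0] at h
        exact hbc h.symm
      · intro h
        exact absurd hc (by simpa using h)
    -- the other terms
    set Q : ℚ := (Nat.card F : ℚ) with hQ
    have tj : ∀ j ∈ Finset.range m,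
        (Q ^ (k + 1) - 1) * ((∑ c' ∈ Finset.univ.erase (0 : F),
        Nat.card (MM F (j + 1) c') * Nat.card (UU F k (m + 1 - (j + 1)) (c / c')) : ℕ) : ℚ) =
        (Q ^ k - 1) * ((Q - 1) * Q ^ j * ((Q * Q ^ k) ^ (m - j) - 1)) := by
      intro j hj
      have hj' : j < m := Finset.mem_range.1 hj
      rw [show m + 1 - (j + 1) = m - j by omega]
      push_cast
      rw [Finset.mul_sum]
      rw [Finset.sum_congr rfl (g := fun _ => Q ^ j * ((Q ^ k - 1) * ((Q * Q ^ k) ^ (m - j) - 1)))]
      · rw [Finset.sum_const, Finset.card_erase_of_mem (Finset.mem_univ _), Finset.card_univ,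
          nsmul_eq_mul, ← Nat.card_eq_fintype_card]
        have h1 : 1 ≤ Nat.card F := Nat.one_le_iff_ne_zero.2 Nat.card_pos.ne'
        rw [Nat.cast_sub h1, ← hQ]
        push_cast
        ring
      · intro c' hc'
        have hc0 : c' ≠ 0 := by simpa using hc'
        have := ih (m - j) (by omega) (by omega) (c / c') (div_ne_zero hc hc0)
        rw [card_MM]
        push_cast
        rw [← hQ]
        calc (Q ^ (k + 1) - 1) * (Q ^ j * (Nat.card (UU F k (m - j) (c / c')) : ℚ))
            = Q ^ j * ((Q ^ (k + 1) - 1) * (Nat.card (UU F k (m - j) (c / c')) : ℚ)) := by ring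
          _ = _ := by
            rw [this]
            congr 3
            rw [← pow_succ', ← pow_mul]
    rw [t0, t1] at h1
    have h2 : (Q ^ (k + 1) - 1) * ((Q ^ m * (Q ^ (m + 1)) ^ k : ℚ)) =
        (Q ^ k - 1) * (∑ j ∈ Finset.range m, (Q - 1) * Q ^ j * ((Q * Q ^ k) ^ (m - j) - 1)) +
        (Q ^ (k + 1) - 1) * (Nat.card (UU F k (m + 1) c) : ℚ) + (Q ^ (k + 1) - 1) * Q ^ m := by
      have h3 := congrArg (fun z : ℕ => (Q ^ (k + 1) - 1) * (z : ℚ)) h1
      simp only [Nat.cast_add, mul_add] at h3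
      rw [Finset.mul_sum, ← Finset.sum_congr rfl tj, ← Finset.mul_sum, ← Nat.cast_sum]
      push_cast at h3 ⊢
      rw [h3]
    rw [geom_id] at h2
    have e1 : Q ^ m * (Q ^ (m + 1)) ^ k = (Q * Q ^ k) ^ m * Q ^ k := by
      rw [← pow_succ' Q k, ← pow_mul, ← pow_mul, ← pow_add, ← pow_add]
      congr 1
      ring
    have e2 : Q ^ ((k + 1) * (m + 1)) = (Q * Q ^ k) ^ (m + 1) := by
      rw [← pow_succ' Q k, ← pow_mul]
    rw [e1] at h2
    rw [e2]
    have e3 : Q ^ (k + 1) = Q * Q ^ k := pow_succ' _ _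
    rw [e3] at h2 ⊢
    linear_combination -h2

end Pool.Agent.MP_359fef_co.GL1
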