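import Pool.Agent.Lib.MP_359fef_co_h47.GL1a

/-!
# GL1, part b: generating tuples, chain vectors, the cyclic case
-/

namespace Pool.Agent.MP_359fef_co.GL1

open Polynomial Module

section gen

variable {F : Type*} [Field F] {M : Type*} [AddCommGroup M] [Module F M] {k : ℕ}

/-- `S` is stable under `T` -/
def StabE (T : M →ₗ[F] M) (S : Submodule F M) : Prop := ∀ x ∈ S, T x ∈ S

/-- `y` generates `M` under `T` -/
def GenE (T : M →ₗ[F] M) (y : Fin k → M) : Prop :=
  ∀ S : Submodule F M, StabE T S → (∀ i, y i ∈ S) → S = ⊤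

theorem StabE.aeval {T : M →ₗ[F] M} {S : Submodule F M} (h : StabE T S) (p : F[X]) {x : M}
    (hx : x ∈ S) : aeval T p x ∈ S := by
  induction p using Polynomial.induction_on' with
  | add p q hp hq =>
    rw [map_add, LinearMap.add_apply]
    exact S.add_mem hp hq
  | monomial n a =>
    rw [aeval_monomial, Module.algebraMap_end_eq_smul_id]
    simp only [Module.End.mul_apply, LinearMap.smul_apply, LinearMap.id_apply]
    apply S.smul_mem
    induction n with
    | zero => simpa using hx
    | succ n ih =>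
      rw [pow_succ', Module.End.mul_apply]
      exact h _ ih

/-- the evaluation map `(p_i) ↦ ∑ p_i(T) y_i` -/
noncomputable def ev (T : M →ₗ[F] M) (y : Fin k → M) : (Fin k → F[X]) →ₗ[F] M where
  toFun p := ∑ i, aeval T (p i) (y i)
  map_add' p q := by simp [Finset.sum_add_distrib]
  map_smul' a p := by simp [Finset.smul_sum]

theorem ev_apply (T : M →ₗ[F] M) (y : Fin k → M) (p : Fin k → F[X]) :
    ev T y p = ∑ i, aeval T (p i) (y i) := rfl

theorem ev_smul (T : M →ₗ[F] M) (y : Fin k → M) (r : F[X]) (p : Fin k → F[X]) :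
    ev T y (r • p) = aeval T r (ev T y p) := by
  rw [ev_apply, ev_apply, map_sum]
  refine Finset.sum_congr rfl fun i _ => ?_
  rw [Pi.smul_apply, smul_eq_mul, map_mul, Module.End.mul_apply]

theorem ev_single (T : M →ₗ[F] M) (y : Fin k → M) (i : Fin k) (r : F[X]) :
    ev T y (Pi.single i r) = aeval T r (y i) := by
  classical
  rw [ev_apply, Finset.sum_eq_single i]
  · simp
  · intro b _ hb
    rw [Pi.single_eq_of_ne hb]; simp
  · intro h; exact absurd (Finset.mem_univ i) h

theorem ev_X (T : M →ₗ[F] M) (y : Fin k → M) (p : Fin k → F[X]) :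
    ev T y ((X : F[X]) • p) = T (ev T y p) := by
  rw [ev_smul, aeval_X]

theorem stab_range (T : M →ₗ[F] M) (y : Fin k → M) : StabE T (LinearMap.range (ev T y)) := by
  rintro x ⟨p, rfl⟩
  exact ⟨(X : F[X]) • p, ev_X T y p⟩

theorem mem_range_ev (T : M →ₗ[F] M) (y : Fin k → M) (i : Fin k) :
    y i ∈ LinearMap.range (ev T y) := ⟨Pi.single i 1, by rw [ev_single]; simp⟩

theorem range_ev_le {T : M →ₗ[F] M} {y : Fin k → M} {S : Submodule F M} (hS : StabE T S)
    (hy : ∀ i, y i ∈ S) : LinearMap.range (ev T y) ≤ S := by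
  rintro x ⟨p, rfl⟩
  rw [ev_apply]
  exact S.sum_mem fun i _ => hS.aeval _ (hy i)

theorem gen_iff {T : M →ₗ[F] M} {y : Fin k → M} :
    GenE T y ↔ Function.Surjective (ev T y) := by
  rw [← LinearMap.range_eq_top]
  constructor
  · intro h
    exact h _ (stab_range T y) (mem_range_ev T y)
  · intro h S hS hy
    rw [eq_top_iff, ← h]
    exact range_ev_le hS hy

/-- the number of generating `k`-tuples -/
noncomputable def NE (T : M →ₗ[F] M) (k : ℕ) : ℕ := Nat.card {y : Fin k → M // GenE T y}

end gen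

section chain

variable {F : Type*} [Field F] {M : Type*} [AddCommGroup M] [Module F M] {k : ℕ}

/-- observability -/
def Obs (T : M →ₗ[F] M) (φ : M →ₗ[F] F) : Prop := ∀ x, (∀ j : ℕ, φ ((T ^ j) x) = 0) → x = 0

/-- chain vectors -/
def IsChain (T : M →ₗ[F] M) (φ : M →ₗ[F] F) (w : M) : Prop :=
  (∀ j, j + 1 < finrank F M → φ ((T ^ j) w) = 0) ∧
    (0 < finrank F M → φ ((T ^ (finrank F M - 1)) w) = 1)

theorem aeval_deg_lt_sum (T : M →ₗ[F] M) {p : F[X]} {m : ℕ} (hp : p.degree < (m : WithBot ℕ))
    (x : M) : aeval T p x = ∑ j ∈ Finset.range m, p.coeff j • (T ^ j) x := by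
  by_cases h0 : p = 0
  · simp [h0]
  · rw [degree_eq_natDegree h0] at hp
    have hn : p.natDegree < m := by exact_mod_cast hp
    rw [aeval_eq_sum_range' hn, LinearMap.sum_apply]
    rfl

theorem obs_of_lt [FiniteDimensional F M] {T : M →ₗ[F] M} {φ : M →ₗ[F] F} (x : M)
    (hx : ∀ j < finrank F M, φ ((T ^ j) x) = 0) (j : ℕ) : φ ((T ^ j) x) = 0 := by
  have h1 : aeval T (X ^ j %ₘ T.charpoly) = T ^ j := by
    have h2 := modByMonic_add_div (X ^ j : F[X]) T.charpoly
    have h3 := congrArg (aeval T) h2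
    rw [map_add, map_mul, LinearMap.aeval_self_charpoly, zero_mul, add_zero] at h3
    rw [h3]; simp
  have hdeg : (X ^ j %ₘ T.charpoly).degree < ((finrank F M : ℕ) : WithBot ℕ) := by
    have h4 := degree_modByMonic_lt (X ^ j : F[X]) T.charpoly_monic
    rwa [degree_eq_natDegree T.charpoly_monic.ne_zero, LinearMap.charpoly_natDegree] at h4
  rw [← h1, aeval_deg_lt_sum T hdeg, map_sum]
  refine Finset.sum_eq_zero fun i hi => ?_
  rw [map_smul, hx i (Finset.mem_range.1 hi), smul_zero]

theorem exists_chain [FiniteDimensional F M] {T : M →ₗ[F] M} {φ : M →ₗ[F] F} (h : Obs T φ) :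
    ∃ w, IsChain T φ w := by
  let Ψ : M →ₗ[F] (Fin (finrank F M) → F) := LinearMap.pi (fun j => φ.comp (T ^ (j : ℕ)))
  have hinj : Function.Injective Ψ := by
    rw [← LinearMap.ker_eq_bot, LinearMap.ker_eq_bot']
    intro x hx
    apply h
    apply obs_of_lt
    intro j hj
    exact congrFun hx ⟨j, hj⟩
  have hsurj : Function.Surjective Ψ :=
    (LinearMap.injective_iff_surjective_of_finrank_eq_finrank (by simp)).1 hinj
  by_cases h0 : 0 < finrank F M
  · obtain ⟨w, hw⟩ := hsurj (Pi.single ⟨finrank F M - 1, by omega⟩ 1)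
    refine ⟨w, fun j hj => ?_, fun _ => ?_⟩
    · have := congrFun hw ⟨j, by omega⟩
      rw [Pi.single_eq_of_ne] at this
      · exact this
      · intro h
        have := congrArg Fin.val h
        simp only at this
        omega
    · have := congrFun hw ⟨finrank F M - 1, by omega⟩
      rw [Pi.single_eq_same] at this
      exact this
  · exact ⟨0, fun j hj => by omega, fun h => absurd h h0⟩

theorem chain_inj {T : M →ₗ[F] M} {φ : M →ₗ[F] F} {w : M} (hw : IsChain T φ w) {p : F[X]}
    (hp : p.degree < ((finrank F M : ℕ) : WithBot ℕ)) (h : aeval T p w = 0) : p = 0 := by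
  by_contra h0
  rw [degree_eq_natDegree h0] at hp
  have hd : p.natDegree < finrank F M := by exact_mod_cast hp
  have h1 : φ ((T ^ (finrank F M - 1 - p.natDegree)) (aeval T p w)) = p.leadingCoeff := by
    rw [aeval_eq_sum_range, LinearMap.sum_apply, map_sum, map_sum,
      Finset.sum_eq_single p.natDegree]
    · rw [LinearMap.smul_apply, map_smul, map_smul, ← Module.End.mul_apply, ← pow_add,
        show finrank F M - 1 - p.natDegree + p.natDegree = finrank F M - 1 by omega,
        hw.2 (by omega)]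
      simp
    · intro j hj hne
      have hj' : j < p.natDegree := by
        have := Finset.mem_range.1 hj
        omega
      rw [LinearMap.smul_apply, map_smul, map_smul, ← Module.End.mul_apply, ← pow_add,
        hw.1 _ (by omega), smul_zero]
    · intro hn
      exact absurd (Finset.mem_range.2 (Nat.lt_succ_self _)) hn
  rw [h, map_zero, map_zero] at h1
  exact h0 (leadingCoeff_eq_zero.1 h1.symm)

/-- evaluation at a chain vector, as a linear equivalence -/
theorem chain_bij [FiniteDimensional F M] {T : M →ₗ[F] M} {φ : M →ₗ[F] F} {w : M}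
    (hw : IsChain T φ w) :
    Function.Bijective (fun p : degreeLT F (finrank F M) => aeval T (p : F[X]) w) := by
  let L : degreeLT F (finrank F M) →ₗ[F] M :=
    ((LinearMap.applyₗ w).comp (aeval T).toLinearMap).comp (degreeLT F (finrank F M)).subtype
  have hL : ∀ p, L p = aeval T (p : F[X]) w := fun p => rfl
  have hinj : Function.Injective L := by
    rw [← LinearMap.ker_eq_bot, LinearMap.ker_eq_bot']
    intro p hp
    apply Subtype.ext
    exact chain_inj hw (mem_degreeLT.1 p.2) hp
  have : FiniteDimensional F (degreeLT F (finrank F M)) :=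
    LinearEquiv.finiteDimensional (degreeLTEquiv F (finrank F M)).symm
  have hfr : finrank F (degreeLT F (finrank F M)) = finrank F M := by
    rw [(degreeLTEquiv F (finrank F M)).finrank_eq]; simp
  have hsurj := (LinearMap.injective_iff_surjective_of_finrank_eq_finrank hfr).1 hinj
  exact ⟨hinj, hsurj⟩

theorem pert_pow {T : M →ₗ[F] M} {φ : M →ₗ[F] F} {w : M} (hw : IsChain T φ w) (v : M) (j : ℕ)
    (hj : j < finrank F M) : ((T + φ.smulRight v) ^ j) w = (T ^ j) w := by
  induction j with
  | zero => simp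
  | succ j ih =>
    rw [pow_succ', Module.End.mul_apply, ih (by omega), LinearMap.add_apply,
      LinearMap.smulRight_apply, hw.1 j hj, zero_smul, add_zero, ← Module.End.mul_apply,
      ← pow_succ']

theorem chain_pert {T : M →ₗ[F] M} {φ : M →ₗ[F] F} {w : M} (hw : IsChain T φ w) (v : M) :
    IsChain (T + φ.smulRight v) φ w := by
  refine ⟨fun j hj => ?_, fun h0 => ?_⟩
  · rw [pert_pow hw v j (by omega)]; exact hw.1 j hj
  · rw [pert_pow hw v _ (by omega)]; exact hw.2 h0

theorem pert_aeval {T : M →ₗ[F] M} {φ : M →ₗ[F] F} {w : M} (hw : IsChain T φ w) (v : M)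
    {p : F[X]} (hp : p.degree < ((finrank F M : ℕ) : WithBot ℕ)) :
    aeval (T + φ.smulRight v) p w = aeval T p w := by
  rw [aeval_deg_lt_sum _ hp, aeval_deg_lt_sum _ hp]
  refine Finset.sum_congr rfl fun j hj => ?_
  rw [pert_pow hw v j (Finset.mem_range.1 hj)]

theorem pert_top {T : M →ₗ[F] M} {φ : M →ₗ[F] F} {w : M} (hw : IsChain T φ w) (v : M)
    (h0 : 0 < finrank F M) :
    ((T + φ.smulRight v) ^ (finrank F M)) w = (T ^ (finrank F M)) w + v := by
  obtain ⟨m, hm⟩ : ∃ m, finrank F M = m + 1 := ⟨finrank F M - 1, by omega⟩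
  have h2 := hw.2 h0
  rw [hm] at h2 ⊢
  rw [Nat.add_sub_cancel] at h2
  rw [pow_succ', Module.End.mul_apply, pert_pow hw v m (by omega), LinearMap.add_apply,
    LinearMap.smulRight_apply, h2, one_smul, ← Module.End.mul_apply, ← pow_succ']

/-- the vector belonging to a monic polynomial -/
noncomputable def vecP (T : M →ₗ[F] M) (w : M) (P : F[X]) : M :=
  aeval T (X ^ (finrank F M) - P) w - (T ^ (finrank F M)) w

theorem deg_sub_lt {P : F[X]} {m : ℕ} (hP : P.Monic) (hm : P.natDegree = m) :
    (X ^ m - P).degree < (m : WithBot ℕ) := by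
  have h4 : (X ^ m : F[X]).degree = P.degree := by
    rw [degree_X_pow, degree_eq_natDegree hP.ne_zero, hm]
  have h5 := degree_sub_lt_left h4 (monic_X_pow m).ne_zero
    (by rw [hP.leadingCoeff, (monic_X_pow m).leadingCoeff])
  rwa [degree_X_pow] at h5

theorem aeval_vecP {T : M →ₗ[F] M} {φ : M →ₗ[F] F} {w : M} (hw : IsChain T φ w)
    (h0 : 0 < finrank F M) {P : F[X]} (hP : P.Monic) (hm : P.natDegree = finrank F M) :
    aeval (T + φ.smulRight (vecP T w P)) P w = 0 := by
  have h1 : P = X ^ (finrank F M) - (X ^ (finrank F M) - P) := by ring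
  conv_lhs => rw [h1]
  rw [map_sub, LinearMap.sub_apply, pert_aeval hw _ (deg_sub_lt hP hm), map_pow, aeval_X,
    pert_top hw _ h0]
  unfold vecP
  abel_nf

theorem ker_iff {T : M →ₗ[F] M} {φ : M →ₗ[F] F} {w : M} (hw : IsChain T φ w)
    (h0 : 0 < finrank F M) {P : F[X]} (hP : P.Monic) (hm : P.natDegree = finrank F M) (p : F[X]) :
    aeval (T + φ.smulRight (vecP T w P)) p w = 0 ↔ P ∣ p := by
  set T' := T + φ.smulRight (vecP T w P) with hT'
  have hw' : IsChain T' φ w := chain_pert hw _
  have hzero : aeval T' P w = 0 := aeval_vecP hw h0 hP hm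
  have hmod : aeval T' p w = aeval T' (p %ₘ P) w := by
    have h2 := modByMonic_add_div p P
    conv_lhs => rw [← h2]
    rw [map_add, LinearMap.add_apply, mul_comm P, map_mul, Module.End.mul_apply, hzero, map_zero,
      add_zero]
  rw [hmod, ← modByMonic_eq_zero_iff_dvd hP]
  constructor
  · intro h
    apply chain_inj hw' _ h
    have := degree_modByMonic_lt p hP
    rwa [degree_eq_natDegree hP.ne_zero, hm] at this
  · intro h
    rw [h]; simp

theorem gen_iff_unim [FiniteDimensional F M] {T : M →ₗ[F] M} {φ : M →ₗ[F] F} {w : M}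
    (hw : IsChain T φ w)
    (h0 : 0 < finrank F M) {P : F[X]} (hP : P.Monic) (hm : P.natDegree = finrank F M)
    (y : Fin k → F[X]) (hy : ∀ i, (y i).degree < ((finrank F M : ℕ) : WithBot ℕ)) :
    GenE (T + φ.smulRight (vecP T w P)) (fun i => aeval T (y i) w) ↔ Unim P y := by
  set T' := T + φ.smulRight (vecP T w P) with hT'
  have hw' : IsChain T' φ w := chain_pert hw _
  have hyy : (fun i => aeval T (y i) w) = fun i => aeval T' (y i) w := by
    funext i
    rw [hT', pert_aeval hw _ (hy i)]
  rw [hyy]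
  constructor
  · intro h
    rw [gen_iff] at h
    obtain ⟨c, hc⟩ := h w
    rw [ev_apply] at hc
    have h1 : aeval T' (∑ i, c i * y i - 1) w = 0 := by
      rw [map_sub, LinearMap.sub_apply, map_sum, LinearMap.sum_apply, map_one,
        Module.End.one_apply, sub_eq_zero]
      refine Eq.trans (Finset.sum_congr rfl fun i _ => ?_) hc
      rw [map_mul, Module.End.mul_apply]
    rw [hT', ker_iff hw h0 hP hm] at h1
    obtain ⟨d, hd⟩ := h1
    refine ⟨c, -d, ?_⟩
    linear_combination hd
  · rintro ⟨c, d, hcd⟩ S hS hyS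
    have hwS : w ∈ S := by
      have h1 : aeval T' (∑ i, c i * y i + d * P) w = w := by rw [hcd]; simp
      rw [map_add, LinearMap.add_apply, map_sum, LinearMap.sum_apply, map_mul,
        Module.End.mul_apply, aeval_vecP hw h0 hP hm, map_zero, add_zero] at h1
      rw [← h1]
      refine S.sum_mem fun i _ => ?_
      rw [map_mul, Module.End.mul_apply]
      exact hS.aeval _ (hyS i)
    rw [eq_top_iff]
    intro x _
    obtain ⟨p, hp⟩ := (chain_bij hw').2 x
    rw [← hp]
    exact hS.aeval _ hwS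

theorem deg_X_mul_sub {m : ℕ} (hm : 0 < m) {t P0 : F[X]} (ht : t.degree < (m : WithBot ℕ))
    (hP : P0.Monic) (hd : P0.natDegree = m) :
    (X * t - C (t.coeff (m - 1)) * P0).degree < (m : WithBot ℕ) := by
  rw [degree_lt_iff_coeff_zero]
  intro j hj
  obtain ⟨j, rfl⟩ : ∃ j', j = j' + 1 := ⟨j - 1, by omega⟩
  rw [coeff_sub, coeff_X_mul, coeff_C_mul]
  rcases Nat.lt_or_ge (j + 1) (m + 1) with h1 | h1
  · have : j + 1 = m := by omega
    subst this
    have h2 : P0.coeff (j + 1) = 1 := by rw [← hd]; exact hP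
    rw [h2]; simp
  · have h2 : t.coeff j = 0 := coeff_eq_zero_of_degree_lt
      (lt_of_lt_of_le ht (by exact_mod_cast (by omega : m ≤ j)))
    have h3 : P0.coeff (j + 1) = 0 := coeff_eq_zero_of_natDegree_lt (by omega)
    rw [h2, h3]; simp

/-- the constant term of the polynomial belonging to a perturbation -/
theorem eval_zero_vecP [FiniteDimensional F M] {T : M →ₗ[F] M} {φ : M →ₗ[F] F} {w : M}
    (hw : IsChain T φ w) (h0 : 0 < finrank F M) {P P0 : F[X]} (hP : P.Monic)
    (hm : P.natDegree = finrank F M) (hP0 : P0.Monic) (hm0 : P0.natDegree = finrank F M)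
    (hz : vecP T w P0 = 0) (u : M) (hu : T u = vecP T w P) :
    P.eval 0 = P0.eval 0 * (1 + φ u) := by
  obtain ⟨t, ht⟩ := (chain_bij hw).2 u
  have ht' : aeval T (t : F[X]) w = u := ht
  have htd : (t : F[X]).degree < ((finrank F M : ℕ) : WithBot ℕ) := mem_degreeLT.1 t.2
  have hφ : φ u = (t : F[X]).coeff (finrank F M - 1) := by
    rw [← ht', aeval_deg_lt_sum T htd, map_sum, Finset.sum_eq_single (finrank F M - 1)]
    · rw [map_smul, hw.2 h0]; simp
    · intro j hj hne
      have := Finset.mem_range.1 hj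
      rw [map_smul, hw.1 j (by omega), smul_zero]
    · intro h
      exact absurd (Finset.mem_range.2 (by omega)) h
  have hz' : aeval T P0 w = 0 := by
    have h1 := aeval_vecP hw h0 hP0 hm0
    rw [hz] at h1
    simpa using h1
  -- `X t - t_{m-1} P0` and `P0 - P` represent the same vector
  have hs1 := deg_X_mul_sub h0 htd hP0 hm0
  have hs2 : (P0 - P).degree < ((finrank F M : ℕ) : WithBot ℕ) := by
    have := degree_sub_lt_left (p := P0) (q := P) (by
      rw [degree_eq_natDegree hP0.ne_zero, degree_eq_natDegree hP.ne_zero, hm, hm0]) hP0.ne_zero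
      (by rw [hP0.leadingCoeff, hP.leadingCoeff])
    rwa [degree_eq_natDegree hP0.ne_zero, hm0] at this
  have e1 : aeval T (X * (t : F[X]) - C ((t : F[X]).coeff (finrank F M - 1)) * P0) w = T u := by
    rw [map_sub, LinearMap.sub_apply, map_mul, aeval_X, Module.End.mul_apply, ht', map_mul,
      Module.End.mul_apply, hz', map_zero, sub_zero]
  have e2 : aeval T (P0 - P) w = T u := by
    rw [hu]
    unfold vecP at hz ⊢
    have h3 : P0 - P = (X ^ finrank F M - P) - (X ^ finrank F M - P0) := by ring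
    rw [h3, map_sub, LinearMap.sub_apply, sub_eq_zero.1 hz]
  have e3 : X * (t : F[X]) - C ((t : F[X]).coeff (finrank F M - 1)) * P0 - (P0 - P) = 0 := by
    apply chain_inj hw
    · exact lt_of_le_of_lt (degree_sub_le _ _) (max_lt hs1 hs2)
    · rw [map_sub, LinearMap.sub_apply, e1, e2, sub_self]
  have e4 := congrArg (eval 0) e3
  simp only [eval_sub, eval_mul, eval_X, zero_mul, eval_C, eval_zero] at e4
  rw [hφ]
  linear_combination e4

theorem exists_P0 [FiniteDimensional F M] {T : M →ₗ[F] M} {φ : M →ₗ[F] F} {w : M}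
    (hw : IsChain T φ w) (v : M) :
    ∃ P : F[X], P.Monic ∧ P.natDegree = finrank F M ∧ vecP T w P = v := by
  obtain ⟨r, hr⟩ := (chain_bij hw).2 ((T ^ (finrank F M)) w + v)
  have hr' : aeval T (r : F[X]) w = (T ^ (finrank F M)) w + v := hr
  have hd : (-(r : F[X])).degree < ((finrank F M : ℕ) : WithBot ℕ) := by
    rw [degree_neg]; exact mem_degreeLT.1 r.2
  refine ⟨X ^ (finrank F M) + (-(r : F[X])), monic_X_pow_add hd, natDegree_X_pow_add' hd, ?_⟩
  unfold vecP
  rw [show X ^ finrank F M - (X ^ finrank F M + -(r : F[X])) = (r : F[X]) by ring, hr']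
  abel

theorem vecP_inj [FiniteDimensional F M] {T : M →ₗ[F] M} {φ : M →ₗ[F] F} {w : M}
    (hw : IsChain T φ w) {P P' : F[X]} (hP : P.Monic) (hm : P.natDegree = finrank F M)
    (hP' : P'.Monic) (hm' : P'.natDegree = finrank F M) (h : vecP T w P = vecP T w P') :
    P = P' := by
  unfold vecP at h
  have h1 : aeval T ((X ^ finrank F M - P) - (X ^ finrank F M - P')) w = 0 := by
    rw [map_sub, LinearMap.sub_apply, sub_eq_zero]
    exact sub_left_injective h
  have h2 := chain_inj hw (lt_of_le_of_lt (degree_sub_le _ _)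
    (max_lt (deg_sub_lt hP hm) (deg_sub_lt hP' hm'))) h1
  linear_combination -h2

/-- Task T2: the observable case -/
theorem card_obs [Fintype F] [FiniteDimensional F M] {T : M →ₗ[F] M} {φ : M →ₗ[F] F}
    (hobs : Obs T φ) (hT : Function.Bijective T) (h0 : 0 < finrank F M) (a : F) (ha : a ≠ 0)
    (k : ℕ) :
    ((Nat.card F : ℚ) ^ (k + 1) - 1) *
      (Nat.card {z : M × (Fin k → M) // φ z.1 = a - 1 ∧ GenE (T + φ.smulRight (T z.1)) z.2} : ℚ) =
      ((Nat.card F : ℚ) ^ k - 1) * ((Nat.card F : ℚ) ^ ((k + 1) * finrank F M) - 1) := by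
  obtain ⟨w, hw⟩ := exists_chain hobs
  obtain ⟨P0, hP0, hm0, hz⟩ := exists_P0 hw 0
  have hc0 : P0.eval 0 ≠ 0 := by
    intro h
    have hX : X ∣ P0 := by
      rw [X_dvd_iff, coeff_zero_eq_eval_zero]; exact h
    obtain ⟨P', hP'⟩ := hX
    have hz' : aeval T P0 w = 0 := by
      have h1 := aeval_vecP hw h0 hP0 hm0
      rw [hz] at h1
      simpa using h1
    rw [hP', map_mul, aeval_X, Module.End.mul_apply] at hz'
    have h2 : aeval T P' w = 0 := hT.1 (by rw [hz', map_zero])
    have hP'0 : P' ≠ 0 := by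
      rintro rfl
      rw [mul_zero] at hP'
      exact hP0.ne_zero hP'
    have h3 : P'.degree < ((finrank F M : ℕ) : WithBot ℕ) := by
      rw [degree_eq_natDegree hP'0]
      have : P0.natDegree = P'.natDegree + 1 := by rw [hP', natDegree_X_mul hP'0]
      exact_mod_cast (by omega : P'.natDegree < finrank F M)
    exact hP'0 (chain_inj hw h3 h2)
  let Te : M ≃ₗ[F] M := LinearEquiv.ofBijective T hT
  have hTe : ∀ v, T (Te.symm v) = v := fun v => Te.apply_symm_apply v
  let f : UU F k (finrank F M) (P0.eval 0 * a) →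
      {z : M × (Fin k → M) // φ z.1 = a - 1 ∧ GenE (T + φ.smulRight (T z.1)) z.2} :=
    fun z => ⟨(Te.symm (vecP T w z.1.1), fun i => aeval T (z.1.2 i) w), by
      obtain ⟨⟨P, y⟩, ⟨⟨h1, h2, h3, h4⟩, h5⟩⟩ := z
      constructor
      · have h6 := eval_zero_vecP hw h0 h1 h2 hP0 hm0 hz (Te.symm (vecP T w P)) (hTe _)
        simp only at h3
        rw [h3] at h6
        have h7 := mul_left_cancel₀ hc0 h6
        simp only
        rw [h7]; ring
      · simp only
        rw [hTe]
        exact (gen_iff_unim hw h0 h1 h2 y h4).2 h5⟩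
  have hf : Function.Bijective f := by
    constructor
    · rintro ⟨⟨P, y⟩, ⟨⟨h1, h2, h3, h4⟩, h5⟩⟩ ⟨⟨P', y'⟩, ⟨⟨h1', h2', h3', h4'⟩, h5'⟩⟩ h
      have hv := congrArg Subtype.val h
      have hv1 : Te.symm (vecP T w P) = Te.symm (vecP T w P') := congrArg Prod.fst hv
      have hv2 : (fun i => aeval T (y i) w) = fun i => aeval T (y' i) w := congrArg Prod.snd hv
      have e1 : P = P' := vecP_inj hw h1 h2 h1' h2' (Te.symm.injective hv1)
      have e2 : y = y' := by
        funext i
        have := congrFun hv2 i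
        change aeval T (y i) w = aeval T (y' i) w at this
        have h6 := (chain_bij hw).1 (a₁ := ⟨y i, mem_degreeLT.2 (h4 i)⟩)
          (a₂ := ⟨y' i, mem_degreeLT.2 (h4' i)⟩) this
        exact congrArg Subtype.val h6
      subst e1 e2
      rfl
    · rintro ⟨⟨u, y⟩, hu, hy⟩
      obtain ⟨P, hP, hm, hv⟩ := exists_P0 hw (T u)
      choose y' hy' using fun i => (chain_bij hw).2 (y i)
      have hyy : y = fun i => aeval T (y' i : F[X]) w := by
        funext i; exact (hy' i).symm
      change φ u = a - 1 at hu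
      change GenE (T + φ.smulRight (T u)) y at hy
      refine ⟨⟨(P, fun i => (y' i : F[X])), ⟨⟨hP, hm, ?_, fun i => mem_degreeLT.1 (y' i).2⟩, ?_⟩⟩, ?_⟩
      · simp only
        rw [eval_zero_vecP hw h0 hP hm hP0 hm0 hz u hv.symm, hu]
        ring
      · simp only
        rw [← gen_iff_unim hw h0 hP hm _ (fun i => mem_degreeLT.1 (y' i).2), hv, ← hyy]
        exact hy
      · apply Subtype.ext
        refine Prod.ext ?_ ?_
        · show Te.symm (vecP T w P) = u
          rw [hv]
          exact Te.symm_apply_apply u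
        · exact hyy.symm
  rw [← Nat.card_congr (Equiv.ofBijective f hf)]
  exact card_UU k (finrank F M) h0 _ (mul_ne_zero hc0 ha)

end chain

end Pool.Agent.MP_359fef_co.GL1
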