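import Pool.Agent.Lib.MP_359fef_co_h47.GL1i

/-!
# GL1, part c: the fibres over a quotient
-/

namespace Pool.Agent.MP_359fef_co.GL1

open Polynomial Module

section relations

variable {F : Type*} [Field F] {Q : Type*} [AddCommGroup Q] [Module F Q] {k : ℕ}

/-- the relations of a tuple -/
noncomputable def Rel (T : Q →ₗ[F] Q) (y : Fin k → Q) : Submodule F[X] (Fin k → F[X]) where
  carrier := {p | ev T y p = 0}
  add_mem' := by
    intro p q hp hq
    have hp' : ev T y p = 0 := hp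
    have hq' : ev T y q = 0 := hq
    show ev T y (p + q) = 0
    rw [map_add, hp', hq', add_zero]
  zero_mem' := map_zero _
  smul_mem' := by
    intro r p hp
    have hp' : ev T y p = 0 := hp
    show ev T y (r • p) = 0
    rw [ev_smul, hp', map_zero]

theorem mem_Rel {T : Q →ₗ[F] Q} {y : Fin k → Q} {p : Fin k → F[X]} :
    p ∈ Rel T y ↔ ev T y p = 0 := Iff.rfl

theorem finrank_Rel [FiniteDimensional F Q] (T : Q →ₗ[F] Q) (y : Fin k → Q) :
    finrank F[X] (Rel T y) = k := by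
  have h1 : Module.IsTorsion F[X] ((Fin k → F[X]) ⧸ Rel T y) := by
    intro x
    obtain ⟨p, rfl⟩ := Submodule.Quotient.mk_surjective _ x
    refine ⟨⟨T.charpoly, mem_nonZeroDivisors_of_ne_zero T.charpoly_monic.ne_zero⟩, ?_⟩
    show T.charpoly • (Submodule.Quotient.mk p : (Fin k → F[X]) ⧸ Rel T y) = 0
    rw [← Submodule.Quotient.mk_smul, Submodule.Quotient.mk_eq_zero, mem_Rel, ev_smul,
      LinearMap.aeval_self_charpoly, LinearMap.zero_apply]
  have h2 := rank_quotient_add_rank_of_isDomain (Rel T y)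
  rw [Module.rank_eq_zero_iff_isTorsion.2 h1, zero_add] at h2
  rw [finrank, h2]
  simp

/-- a basis of the relations -/
noncomputable def relBasis [FiniteDimensional F Q] (T : Q →ₗ[F] Q) (y : Fin k → Q) :
    Basis (Fin k) F[X] (Rel T y) :=
  Module.finBasisOfFinrankEq F[X] (Rel T y) (finrank_Rel T y)

end relations

section intertwine

variable {F : Type*} [Field F] {M : Type*} [AddCommGroup M] [Module F M]
  {Q : Type*} [AddCommGroup Q] [Module F Q] {k : ℕ}

theorem aeval_map {π : M →ₗ[F] Q} {A : M →ₗ[F] M} {B : Q →ₗ[F] Q}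
    (h : ∀ x, π (A x) = B (π x)) (p : F[X]) (x : M) : π (aeval A p x) = aeval B p (π x) := by
  induction p using Polynomial.induction_on' with
  | add p q hp hq =>
    rw [map_add, map_add, LinearMap.add_apply, LinearMap.add_apply, map_add, hp, hq]
  | monomial n a =>
    rw [aeval_monomial, aeval_monomial, Module.algebraMap_end_eq_smul_id,
      Module.algebraMap_end_eq_smul_id]
    simp only [Module.End.mul_apply, LinearMap.smul_apply, LinearMap.id_apply, map_smul]
    congr 1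
    induction n with
    | zero => simp
    | succ n ih =>
      rw [pow_succ', Module.End.mul_apply, h, ih, pow_succ', Module.End.mul_apply]

theorem ev_map {π : M →ₗ[F] Q} {A : M →ₗ[F] M} {B : Q →ₗ[F] Q}
    (h : ∀ x, π (A x) = B (π x)) (y : Fin k → M) (p : Fin k → F[X]) :
    π (ev A y p) = ev B (fun i => π (y i)) p := by
  rw [ev_apply, ev_apply, map_sum]
  exact Finset.sum_congr rfl fun i _ => aeval_map h _ _

theorem aeval_congr {A B : M →ₗ[F] M} {S : Submodule F M} (hB : StabE B S)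
    (h : ∀ x ∈ S, A x = B x) (p : F[X]) {x : M} (hx : x ∈ S) : aeval A p x = aeval B p x := by
  induction p using Polynomial.induction_on' with
  | add p q hp hq =>
    rw [map_add, map_add, LinearMap.add_apply, LinearMap.add_apply, hp, hq]
  | monomial n a =>
    rw [aeval_monomial, aeval_monomial, Module.algebraMap_end_eq_smul_id]
    simp only [Module.End.mul_apply, LinearMap.smul_apply, LinearMap.id_apply]
    congr 1
    have key : ∀ n : ℕ, (A ^ n) x = (B ^ n) x ∧ (B ^ n) x ∈ S := by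
      intro n
      induction n with
      | zero => exact ⟨by simp, by simpa using hx⟩
      | succ n ih =>
        refine ⟨?_, ?_⟩
        · rw [pow_succ', Module.End.mul_apply, ih.1, h _ ih.2, pow_succ', Module.End.mul_apply]
        · rw [pow_succ', Module.End.mul_apply]; exact hB _ ih.2
    exact (key n).1

theorem card_fib {π : M →ₗ[F] Q} (hπ : Function.Surjective π) (c : Q) :
    Nat.card {x : M // π x = c} = Nat.card (LinearMap.ker π) := by
  obtain ⟨x0, rfl⟩ := hπ c
  refine Nat.card_congr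
    { toFun := fun x => ⟨x.1 - x0, by rw [LinearMap.mem_ker, map_sub, x.2, sub_self]⟩
      invFun := fun d => ⟨d.1 + x0, by rw [map_add, LinearMap.mem_ker.1 d.2, zero_add]⟩
      left_inv := fun x => by simp
      right_inv := fun d => by simp }

theorem card_lifts {π : M →ₗ[F] Q} (hπ : Function.Surjective π) (u' : Q) (y' : Fin k → Q) :
    Nat.card {z : M × (Fin k → M) // π z.1 = u' ∧ ∀ i, π (z.2 i) = y' i} =
      Nat.card (LinearMap.ker π) ^ (k + 1) := by
  rw [Nat.card_congr (β := {x : M // π x = u'} × ((i : Fin k) → {x : M // π x = y' i}))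
    { toFun := fun z => (⟨z.1.1, z.2.1⟩, fun i => ⟨z.1.2 i, z.2.2 i⟩)
      invFun := fun w => ⟨(w.1.1, fun i => (w.2 i).1), w.1.2, fun i => (w.2 i).2⟩
      left_inv := fun z => rfl
      right_inv := fun w => rfl }]
  rw [Nat.card_prod, Nat.card_pi, card_fib hπ]
  simp only [card_fib hπ, Finset.prod_const, Finset.card_univ, Fintype.card_fin]
  rw [pow_succ, mul_comm]

end intertwine

section fibre

variable {F : Type*} [Field F] {M : Type*} [AddCommGroup M] [Module F M]
  {Q : Type*} [AddCommGroup Q] [Module F Q] {k : ℕ}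
  (π : M →ₗ[F] Q) (T : M →ₗ[F] M) (Tq : Q →ₗ[F] Q) (ψ : Q →ₗ[F] F)

/-- the perturbed operator -/
def GU (u : M) : M →ₗ[F] M := T + (ψ ∘ₗ π).smulRight (T u)

/-- the perturbed operator on the quotient -/
def GQ (u' : Q) : Q →ₗ[F] Q := Tq + ψ.smulRight (Tq u')

variable {π T Tq ψ}

theorem GU_apply (u x : M) : GU π T ψ u x = T x + ψ (π x) • T u := rfl

theorem GQ_apply (u' x : Q) : GQ Tq ψ u' x = Tq x + ψ x • Tq u' := rfl

theorem GU_map (hT : ∀ x, π (T x) = Tq (π x)) {u : M} {u' : Q} (hu : π u = u') (x : M) :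
    π (GU π T ψ u x) = GQ Tq ψ u' (π x) := by
  rw [GU_apply, GQ_apply, map_add, map_smul, hT, hT, hu]

theorem stab_ker (hT : ∀ x, π (T x) = Tq (π x)) : StabE T (LinearMap.ker π) := by
  intro x hx
  rw [LinearMap.mem_ker] at hx ⊢
  rw [hT, hx, map_zero]

theorem GU_ker (u : M) {x : M} (hx : x ∈ LinearMap.ker π) : GU π T ψ u x = T x := by
  rw [GU_apply, LinearMap.mem_ker.1 hx]
  simp

theorem aeval_GU_ker (hT : ∀ x, π (T x) = Tq (π x)) (u : M) (p : F[X]) {x : M}
    (hx : x ∈ LinearMap.ker π) : aeval (GU π T ψ u) p x = aeval T p x :=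
  aeval_congr (stab_ker hT) (fun _ h => GU_ker u h) p hx

variable [FiniteDimensional F Q]

/-- the tuple of relations of a lift -/
noncomputable def theta (π : M →ₗ[F] Q) (T : M →ₗ[F] M) (Tq : Q →ₗ[F] Q) (ψ : Q →ₗ[F] F)
    (u' : Q) (y' : Fin k → Q) (u : M) (y : Fin k → M) (j : Fin k) : M :=
  ev (GU π T ψ u) y (relBasis (GQ Tq ψ u') y' j : Fin k → F[X])

theorem theta_mem (hT : ∀ x, π (T x) = Tq (π x)) {u' : Q} {y' : Fin k → Q} {u : M}
    {y : Fin k → M} (hu : π u = u') (hy : ∀ i, π (y i) = y' i) (j : Fin k) :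
    theta π T Tq ψ u' y' u y j ∈ LinearMap.ker π := by
  rw [LinearMap.mem_ker, theta, ev_map (GU_map hT hu),
    show (fun i => π (y i)) = y' from funext hy]
  exact (relBasis (GQ Tq ψ u') y' j).2

theorem ev_theta (hT : ∀ x, π (T x) = Tq (π x)) {u' : Q} {y' : Fin k → Q} {u : M}
    {y : Fin k → M} (hu : π u = u') (hy : ∀ i, π (y i) = y' i) (c : Fin k → F[X]) :
    ev T (theta π T Tq ψ u' y' u y) c = ev (GU π T ψ u) y
      (∑ j, c j • (relBasis (GQ Tq ψ u') y' j : Fin k → F[X])) := by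
  rw [map_sum, ev_apply]
  refine Finset.sum_congr rfl fun j _ => ?_
  rw [ev_smul, ← aeval_GU_ker hT u _ (theta_mem hT hu hy j)]
  rfl

theorem exists_rel_coeff {u' : Q} {y' : Fin k → Q} {p : Fin k → F[X]}
    (hp : ev (GQ Tq ψ u') y' p = 0) :
    ∃ c : Fin k → F[X], p = ∑ j, c j • (relBasis (GQ Tq ψ u') y' j : Fin k → F[X]) := by
  have h1 := (relBasis (GQ Tq ψ u') y').sum_repr ⟨p, hp⟩
  refine ⟨fun j => (relBasis (GQ Tq ψ u') y').repr ⟨p, hp⟩ j, ?_⟩
  have h2 := congrArg Subtype.val h1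
  rw [AddSubmonoidClass.coe_finsetSum] at h2
  exact h2.symm

theorem gen_iff_theta (hT : ∀ x, π (T x) = Tq (π x))
    {u' : Q} {y' : Fin k → Q} (hgen : GenE (GQ Tq ψ u') y') {u : M}
    {y : Fin k → M} (hu : π u = u') (hy : ∀ i, π (y i) = y' i) :
    GenE (GU π T ψ u) y ↔ hull T (theta π T Tq ψ u' y' u y) = LinearMap.ker π := by
  have hyy : (fun i => π (y i)) = y' := funext hy
  have hle : hull T (theta π T Tq ψ u' y' u y) ≤ LinearMap.ker π :=
    hull_le (stab_ker hT) (theta_mem hT hu hy)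
  constructor
  · intro h
    refine le_antisymm hle fun x hx => ?_
    rw [gen_iff] at h
    obtain ⟨p, rfl⟩ := h x
    rw [LinearMap.mem_ker, ev_map (GU_map hT hu), hyy] at hx
    obtain ⟨c, rfl⟩ := exists_rel_coeff hx
    rw [← ev_theta hT hu hy]
    exact ⟨c, rfl⟩
  · intro h
    rw [gen_iff] at hgen ⊢
    intro x
    obtain ⟨p, hp⟩ := hgen (π x)
    have h1 : x - ev (GU π T ψ u) y p ∈ LinearMap.ker π := by
      rw [LinearMap.mem_ker, map_sub, ev_map (GU_map hT hu), hyy, hp, sub_self]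
    rw [← h] at h1
    obtain ⟨c, hc⟩ := h1
    rw [ev_theta hT hu hy] at hc
    refine ⟨p + ∑ j, c j • (relBasis (GQ Tq ψ u') y' j : Fin k → F[X]), ?_⟩
    rw [map_add, hc]
    abel

/-- a lift is determined by its relations and one more vector -/
theorem lift_inj (hT : ∀ x, π (T x) = Tq (π x)) (hTinj : Function.Injective T)
    {u' : Q} {y' : Fin k → Q} (h0 : 0 < finrank F Q) {w : Q}
    (hw : IsChain (GQ Tq ψ u') ψ w) {pw : Fin k → F[X]} (hpw : ev (GQ Tq ψ u') y' pw = w)
    {u v : M} {y z : Fin k → M} (hu : π u = u') (hy : ∀ i, π (y i) = y' i)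
    (hv : π v = u') (hz : ∀ i, π (z i) = y' i)
    (hth : theta π T Tq ψ u' y' u y = theta π T Tq ψ u' y' v z)
    (hx : ev (GU π T ψ u) y pw = ev (GU π T ψ v) z pw) : u = v ∧ y = z := by
  have hyy : (fun i => π (y i)) = y' := funext hy
  have hzz : (fun i => π (z i)) = y' := funext hz
  have hL : ∀ p, ev (GQ Tq ψ u') y' p = 0 → ev (GU π T ψ u) y p - ev (GU π T ψ v) z p = 0 := by
    intro p hp
    obtain ⟨c, rfl⟩ := exists_rel_coeff hp
    rw [← ev_theta hT hu hy, ← ev_theta hT hv hz, hth, sub_self]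
  have hstep : ∀ p, ev (GU π T ψ u) y ((X : F[X]) • p) - ev (GU π T ψ v) z ((X : F[X]) • p) =
      T (ev (GU π T ψ u) y p - ev (GU π T ψ v) z p) +
        ψ (ev (GQ Tq ψ u') y' p) • T (u - v) := by
    intro p
    rw [ev_X, ev_X, GU_apply, GU_apply, ev_map (GU_map hT hu), ev_map (GU_map hT hv), hyy, hzz,
      map_sub, map_sub, smul_sub]
    abel
  have hpow : ∀ j, ev (GQ Tq ψ u') y' ((X : F[X]) ^ j • pw) = (GQ Tq ψ u' ^ j) w := by
    intro j
    rw [ev_smul, hpw, map_pow, aeval_X]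
  have hj : ∀ j, j < finrank F Q → ev (GU π T ψ u) y ((X : F[X]) ^ j • pw) -
      ev (GU π T ψ v) z ((X : F[X]) ^ j • pw) = 0 := by
    intro j
    induction j with
    | zero => intro _; rw [pow_zero, one_smul, hx, sub_self]
    | succ j ih =>
      intro hlt
      rw [pow_succ', mul_smul, hstep, ih (by omega), hpow, hw.1 j hlt, map_zero, zero_smul,
        add_zero]
  have hall : ∀ p, ev (GU π T ψ u) y p - ev (GU π T ψ v) z p = 0 := by
    intro p
    obtain ⟨r, hr⟩ := (chain_bij hw).2 (ev (GQ Tq ψ u') y' p)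
    have hr' : aeval (GQ Tq ψ u') (r : F[X]) w = ev (GQ Tq ψ u') y' p := hr
    have h1 := hL (p - (r : F[X]) • pw) (by rw [map_sub, ev_smul, hpw, hr', sub_self])
    have h2 : ev (GU π T ψ u) y ((r : F[X]) • pw) - ev (GU π T ψ v) z ((r : F[X]) • pw) = 0 := by
      have hsum : (r : F[X]) • pw = ∑ j ∈ Finset.range (finrank F Q),
          (r : F[X]).coeff j • ((X : F[X]) ^ j • pw) := by
        have hr2 : (r : F[X]) = ∑ j ∈ Finset.range (finrank F Q),
            C ((r : F[X]).coeff j) * (X : F[X]) ^ j := by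
          refine (as_sum_range_C_mul_X_pow' _ ?_)
          by_cases hr0 : (r : F[X]) = 0
          · rw [hr0, natDegree_zero]; exact h0
          · exact (natDegree_lt_iff_degree_lt hr0).2 (mem_degreeLT.1 r.2)
        conv_lhs => rw [hr2]
        rw [Finset.sum_smul]
        refine Finset.sum_congr rfl fun j _ => ?_
        rw [mul_smul]
        funext i
        simp [smul_eq_C_mul]
      rw [hsum, map_sum, map_sum, ← Finset.sum_sub_distrib]
      refine Finset.sum_eq_zero fun j hj' => ?_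
      rw [(ev (GU π T ψ u) y).map_smul, (ev (GU π T ψ v) z).map_smul, ← smul_sub,
        hj j (Finset.mem_range.1 hj'), smul_zero]
    rw [map_sub, map_sub] at h1
    have h3 : ev (GU π T ψ u) y p - ev (GU π T ψ v) z p =
      (ev (GU π T ψ u) y p - ev (GU π T ψ u) y ((r : F[X]) • pw) -
        (ev (GU π T ψ v) z p - ev (GU π T ψ v) z ((r : F[X]) • pw))) +
      (ev (GU π T ψ u) y ((r : F[X]) • pw) - ev (GU π T ψ v) z ((r : F[X]) • pw)) := by abel
    rw [h3, h1, h2, add_zero]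
  constructor
  · have h1 := hstep ((X : F[X]) ^ (finrank F Q - 1) • pw)
    rw [hall, hall, map_zero, zero_add, hpow, hw.2 h0, one_smul] at h1
    have h2 : T u = T v := by rw [map_sub] at h1; exact (sub_eq_zero.1 h1.symm)
    exact hTinj h2
  · funext i
    have h1 := hall (Pi.single i 1)
    rw [ev_single, ev_single] at h1
    simpa [sub_eq_zero] using h1

end fibre

section count

variable {F : Type*} [Field F] [Finite F] {M : Type*} [AddCommGroup M] [Module F M]
  [FiniteDimensional F M] {Q : Type*} [AddCommGroup Q] [Module F Q] [FiniteDimensional F Q] {k : ℕ}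

/-- the number of generating lifts -/
theorem card_fibre {π : M →ₗ[F] Q} (hπ : Function.Surjective π) {T : M →ₗ[F] M}
    {Tq : Q →ₗ[F] Q} {ψ : Q →ₗ[F] F} (hT : ∀ x, π (T x) = Tq (π x))
    (hTinj : Function.Injective T) (hobs : Obs Tq ψ) (h0 : 0 < finrank F Q)
    {u' : Q} {y' : Fin k → Q} (hgen : GenE (GQ Tq ψ u') y') :
    Nat.card {z : M × (Fin k → M) // (π z.1 = u' ∧ ∀ i, π (z.2 i) = y' i) ∧
      GenE (GU π T ψ z.1) z.2} = Nat.card (LinearMap.ker π) * NS T (LinearMap.ker π) k := by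
  have : Finite M := Module.finite_of_finite F
  obtain ⟨w, hw⟩ := exists_chain hobs
  have hw' : IsChain (GQ Tq ψ u') ψ w := chain_pert hw (Tq u')
  obtain ⟨pw, hpw⟩ := gen_iff.1 hgen w
  let f : {z : M × (Fin k → M) // π z.1 = u' ∧ ∀ i, π (z.2 i) = y' i} →
      {s : M × (Fin k → M) // π s.1 = w ∧ ∀ i, π (s.2 i) = 0} := fun z =>
    ⟨(ev (GU π T ψ z.1.1) z.1.2 pw, theta π T Tq ψ u' y' z.1.1 z.1.2), by
      constructor
      · show π (ev (GU π T ψ z.1.1) z.1.2 pw) = w
        rw [ev_map (GU_map hT z.2.1), show (fun i => π (z.1.2 i)) = y' from funext z.2.2, hpw]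
      · intro j
        exact theta_mem hT z.2.1 z.2.2 j⟩
  have hinj : Function.Injective f := by
    rintro ⟨⟨u, y⟩, hu, hy⟩ ⟨⟨v, z⟩, hv, hz⟩ h
    have h1 := congrArg Subtype.val h
    have h2 : ev (GU π T ψ u) y pw = ev (GU π T ψ v) z pw := congrArg Prod.fst h1
    have h3 : theta π T Tq ψ u' y' u y = theta π T Tq ψ u' y' v z := congrArg Prod.snd h1
    obtain ⟨e1, e2⟩ := lift_inj hT hTinj h0 hw' hpw hu hy hv hz h3 h2
    subst e1 e2
    rfl
  have hbij : Function.Bijective f := by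
    rw [Nat.bijective_iff_injective_and_card]
    exact ⟨hinj, by rw [card_lifts hπ, card_lifts hπ w (fun _ => 0)]⟩
  have e1 : Nat.card {z : M × (Fin k → M) // (π z.1 = u' ∧ ∀ i, π (z.2 i) = y' i) ∧
      GenE (GU π T ψ z.1) z.2} =
      Nat.card ({x : M // π x = w} × {y : Fin k → M // hull T y = LinearMap.ker π}) := by
    refine Nat.card_congr (Equiv.ofBijective
      (fun z => (⟨(f ⟨z.1, z.2.1⟩).1.1, (f ⟨z.1, z.2.1⟩).2.1⟩,
        ⟨(f ⟨z.1, z.2.1⟩).1.2, (gen_iff_theta hT hgen z.2.1.1 z.2.1.2).1 z.2.2⟩)) ⟨?_, ?_⟩)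
    · rintro ⟨z, hz, hz'⟩ ⟨s, hs, hs'⟩ h
      apply Subtype.ext
      have h1 : (f ⟨z, hz⟩).1.1 = (f ⟨s, hs⟩).1.1 := congrArg (fun a => a.1.1) h
      have h2 : (f ⟨z, hz⟩).1.2 = (f ⟨s, hs⟩).1.2 := congrArg (fun a => a.2.1) h
      have h3 : f ⟨z, hz⟩ = f ⟨s, hs⟩ := Subtype.ext (Prod.ext h1 h2)
      exact Subtype.mk.inj (hinj h3)
    · rintro ⟨⟨x, hx⟩, ⟨y, hy⟩⟩
      obtain ⟨z, hz⟩ := hbij.2 ⟨(x, y), hx, fun i => by
        have := mem_hull T y i
        rw [hy] at this
        exact this⟩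
      have h1 : ev (GU π T ψ z.1.1) z.1.2 pw = x := congrArg (fun a => a.1.1) hz
      have h2 : theta π T Tq ψ u' y' z.1.1 z.1.2 = y := congrArg (fun a => a.1.2) hz
      refine ⟨⟨z.1, z.2, (gen_iff_theta hT hgen z.2.1 z.2.2).2 (by rw [h2]; exact hy)⟩, ?_⟩
      refine Prod.ext (Subtype.ext h1) (Subtype.ext h2)
  rw [e1, Nat.card_prod, card_fib hπ]
  rfl

/-- part (a), for a surjection onto an observable quotient -/
theorem card_pert_aux {π : M →ₗ[F] Q} (hπ : Function.Surjective π) {T : M →ₗ[F] M}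
    {Tq : Q →ₗ[F] Q} {ψ : Q →ₗ[F] F} (hT : ∀ x, π (T x) = Tq (π x))
    (hTinj : Function.Injective T) (hTq : Function.Bijective Tq)
    (hobs : Obs Tq ψ) (h0 : 0 < finrank F Q) (a : F) (ha : a ≠ 0) (k : ℕ) :
    ((Nat.card F : ℚ) ^ (k + 1) - 1) *
      (Nat.card {z : M × (Fin k → M) // ψ (π z.1) = a - 1 ∧ GenE (GU π T ψ z.1) z.2} : ℚ) =
    Nat.card (LinearMap.ker π) * NS T (LinearMap.ker π) k *
      (((Nat.card F : ℚ) ^ k - 1) * ((Nat.card F : ℚ) ^ ((k + 1) * finrank F Q) - 1)) := by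
  have : Fintype F := Fintype.ofFinite F
  have : Finite M := Module.finite_of_finite F
  have : Finite Q := Module.finite_of_finite F
  rw [← card_obs hobs hTq h0 a ha k]
  have h1 : Nat.card {z : M × (Fin k → M) // ψ (π z.1) = a - 1 ∧ GenE (GU π T ψ z.1) z.2} =
      Nat.card {z : Q × (Fin k → Q) // ψ z.1 = a - 1 ∧ GenE (Tq + ψ.smulRight (Tq z.1)) z.2} *
        (Nat.card (LinearMap.ker π) * NS T (LinearMap.ker π) k) := by
    let g : {z : M × (Fin k → M) // ψ (π z.1) = a - 1 ∧ GenE (GU π T ψ z.1) z.2} →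
        {z : Q × (Fin k → Q) // ψ z.1 = a - 1 ∧ GenE (Tq + ψ.smulRight (Tq z.1)) z.2} :=
      fun z => ⟨(π z.1.1, fun i => π (z.1.2 i)), z.2.1, by
        show GenE (GQ Tq ψ (π z.1.1)) (fun i => π (z.1.2 i))
        have h2 := gen_iff.1 z.2.2
        rw [gen_iff]
        intro x
        obtain ⟨m, rfl⟩ := hπ x
        obtain ⟨p, rfl⟩ := h2 m
        exact ⟨p, (ev_map (GU_map hT rfl) _ _).symm⟩⟩
    have : Fintype {z : Q × (Fin k → Q) // ψ z.1 = a - 1 ∧
        GenE (Tq + ψ.smulRight (Tq z.1)) z.2} := Fintype.ofFinite _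
    rw [Nat.card_congr (Equiv.sigmaFiberEquiv g).symm, Nat.card_sigma,
      Finset.sum_congr rfl (g := fun _ => Nat.card (LinearMap.ker π) * NS T (LinearMap.ker π) k)]
    · rw [Finset.sum_const, Finset.card_univ, ← Nat.card_eq_fintype_card, smul_eq_mul]
    · rintro ⟨⟨u', y'⟩, hu', hy'⟩ _
      rw [← card_fibre hπ hT hTinj hobs h0 hy']
      refine Nat.card_congr
        { toFun := fun z => ⟨z.1.1, ⟨congrArg (fun a => a.1.1) z.2, fun i =>
            congrFun (congrArg (fun a => a.1.2) z.2) i⟩, z.1.2.2⟩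
          invFun := fun z => ⟨⟨z.1, ⟨by rw [z.2.1.1]; exact hu', z.2.2⟩⟩,
            Subtype.ext (Prod.ext z.2.1.1 (funext z.2.1.2))⟩
          left_inv := fun z => rfl
          right_inv := fun z => rfl }
  rw [h1]
  push_cast
  ring

end count

end Pool.Agent.MP_359fef_co.GL1
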