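import Pool.Agent.Lib.MP_359fef_co_h47.GL1c

/-!
# GL1, part d: rank one perturbations of a bijective map
-/

namespace Pool.Agent.MP_359fef_co.GL1

open Polynomial Module

variable {F : Type*} [Field F] [Finite F] {M : Type*} [AddCommGroup M] [Module F M]
  [FiniteDimensional F M]

/-- part (a) -/
theorem card_pert {T : M →ₗ[F] M} (hT : Function.Bijective T) {φ : M →ₗ[F] F} (hφ : φ ≠ 0)
    (a : F) (ha : a ≠ 0) (k : ℕ) :
    ((Nat.card F : ℚ) ^ (k + 1) - 1) *
      (Nat.card {z : M × (Fin k → M) // φ z.1 = a - 1 ∧ GenE (T + φ.smulRight (T z.1)) z.2} : ℚ) =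
    Nat.card (DD T φ) * NS T (DD T φ) k *
      (((Nat.card F : ℚ) ^ k - 1) *
        ((Nat.card F : ℚ) ^ ((k + 1) * finrank F (M ⧸ DD T φ)) - 1)) := by
  have hle : DD T φ ≤ (DD T φ).comap T := fun x hx => stab_DD T φ x hx
  have hψ : ((DD T φ).liftQ φ (DD_le T φ)) ∘ₗ (DD T φ).mkQ = φ := (DD T φ).liftQ_mkQ φ _
  have hTm : ∀ x, (DD T φ).mkQ (T x) = ((DD T φ).mapQ (DD T φ) T hle) ((DD T φ).mkQ x) :=
    fun x => rfl
  have hsurj : Function.Surjective ((DD T φ).mapQ (DD T φ) T hle) := by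
    intro y
    obtain ⟨y, rfl⟩ := (DD T φ).mkQ_surjective y
    obtain ⟨x, rfl⟩ := hT.2 y
    exact ⟨(DD T φ).mkQ x, rfl⟩
  have hbij : Function.Bijective ((DD T φ).mapQ (DD T φ) T hle) :=
    ⟨LinearMap.injective_iff_surjective.2 hsurj, hsurj⟩
  have hpow : ∀ (j : ℕ) (x : M), (((DD T φ).mapQ (DD T φ) T hle) ^ j) ((DD T φ).mkQ x) =
      (DD T φ).mkQ ((T ^ j) x) := by
    intro j x
    induction j with
    | zero => simp
    | succ j ih => rw [pow_succ', Module.End.mul_apply, ih, ← hTm, pow_succ', Module.End.mul_apply]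
  have hobs : Obs ((DD T φ).mapQ (DD T φ) T hle) ((DD T φ).liftQ φ (DD_le T φ)) := by
    intro x hx
    obtain ⟨x, rfl⟩ := (DD T φ).mkQ_surjective x
    rw [Submodule.mkQ_apply, Submodule.Quotient.mk_eq_zero, mem_DD]
    intro j
    have := hx j
    rw [hpow] at this
    exact this
  have h0 : 0 < finrank F (M ⧸ DD T φ) := by
    rw [Module.finrank_pos_iff, Submodule.Quotient.nontrivial_iff]
    intro h
    apply hφ
    have h1 := DD_le T φ
    rw [h, top_le_iff, LinearMap.ker_eq_top] at h1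
    exact h1
  have key := card_pert_aux (DD T φ).mkQ_surjective hTm hT.1 hbij hobs h0 a ha k
  rw [Submodule.ker_mkQ] at key
  rw [← key]
  congr 3

/-- the sum over all functionals, given the two summation formulas -/
theorem sum_pert [Fintype (M →ₗ[F] F)] [DecidableEq (M →ₗ[F] F)] {T : M →ₗ[F] M}
    (hT : Function.Bijective T) (a : F) (ha : a ≠ 0) (k : ℕ)
    (b1 : ∑ φ : M →ₗ[F] F, (Nat.card F : ℚ) ^ (k * finrank F (M ⧸ DD T φ)) * NS T (DD T φ) k =
      NE T (k + 1))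
    (b2 : ∑ φ : M →ₗ[F] F, (Nat.card (DD T φ) : ℚ) * NS T (DD T φ) k = NE T (k + 1)) :
    ((Nat.card F : ℚ) ^ (k + 1) - 1) * ∑ φ ∈ Finset.univ.filter (fun φ : M →ₗ[F] F => φ ≠ 0),
      (Nat.card {z : M × (Fin k → M) // φ z.1 = a - 1 ∧
        GenE (T + φ.smulRight (T z.1)) z.2} : ℚ) =
    ((Nat.card F : ℚ) ^ k - 1) * ((Nat.card F : ℚ) ^ (finrank F M) - 1) * NE T (k + 1) := by
  have : Fintype F := Fintype.ofFinite F
  have h1 : ∀ φ : M →ₗ[F] F, (Nat.card (DD T φ) : ℚ) * NS T (DD T φ) k *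
      (((Nat.card F : ℚ) ^ k - 1) *
        ((Nat.card F : ℚ) ^ ((k + 1) * finrank F (M ⧸ DD T φ)) - 1)) =
      ((Nat.card F : ℚ) ^ k - 1) * ((Nat.card F : ℚ) ^ (finrank F M) *
        ((Nat.card F : ℚ) ^ (k * finrank F (M ⧸ DD T φ)) * NS T (DD T φ) k) -
        (Nat.card (DD T φ) : ℚ) * NS T (DD T φ) k) := by
    intro φ
    have h2 : (Nat.card (DD T φ) : ℚ) = (Nat.card F : ℚ) ^ finrank F (DD T φ) := by
      rw [Module.natCard_eq_pow_finrank (K := F)]
      push_cast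
      rfl
    have h3 : (Nat.card F : ℚ) ^ (finrank F M) =
        (Nat.card F : ℚ) ^ finrank F (M ⧸ DD T φ) * (Nat.card F : ℚ) ^ finrank F (DD T φ) := by
      rw [← pow_add, Submodule.finrank_quotient_add_finrank]
    rw [h2, h3, add_mul, one_mul, pow_add]
    ring
  rw [Finset.mul_sum, Finset.sum_congr rfl (fun φ hφ => card_pert hT
    (Finset.mem_filter.1 hφ).2 a ha k), Finset.sum_filter_of_ne]
  · rw [Finset.sum_congr rfl (fun φ _ => h1 φ), ← Finset.mul_sum, Finset.sum_sub_distrib,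
      ← Finset.mul_sum, b1, b2]
    ring
  · intro φ _ h hφ
    apply h
    subst hφ
    have h4 : DD T (0 : M →ₗ[F] F) = ⊤ := by
      rw [eq_top_iff]
      intro x _
      rw [mem_DD]
      intro j; rfl
    have h5 : finrank F (M ⧸ DD T (0 : M →ₗ[F] F)) = 0 := by
      have h6 := Submodule.finrank_quotient_add_finrank (DD T (0 : M →ₗ[F] F))
      rw [h4, finrank_top] at h6
      rw [h4]
      omega
    rw [h5]
    simp

end Pool.Agent.MP_359fef_co.GL1
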