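import Pool.Agent.Lib.MP_359fef_co_h47.GL1b

/-!
# GL1, interface: the subspaces `DD T φ` and the statements of the two main inputs
-/

namespace Pool.Agent.MP_359fef_co.GL1

open Polynomial Module

section dd

variable {F : Type*} [Field F] {M : Type*} [AddCommGroup M] [Module F M] {k : ℕ}

/-- the largest `T`-stable subspace of `ker φ` -/
def DD (T : M →ₗ[F] M) (φ : M →ₗ[F] F) : Submodule F M := ⨅ j : ℕ, LinearMap.ker (φ ∘ₗ (T ^ j))

theorem mem_DD {T : M →ₗ[F] M} {φ : M →ₗ[F] F} {x : M} :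
    x ∈ DD T φ ↔ ∀ j : ℕ, φ ((T ^ j) x) = 0 := by
  simp [DD, Submodule.mem_iInf]

theorem stab_DD (T : M →ₗ[F] M) (φ : M →ₗ[F] F) : StabE T (DD T φ) := by
  intro x hx
  rw [mem_DD] at hx ⊢
  intro j
  have := hx (j + 1)
  rwa [pow_succ, Module.End.mul_apply] at this

theorem DD_le (T : M →ₗ[F] M) (φ : M →ₗ[F] F) : DD T φ ≤ LinearMap.ker φ := by
  intro x hx
  rw [mem_DD] at hx
  simpa using hx 0

theorem le_DD {T : M →ₗ[F] M} {φ : M →ₗ[F] F} {S : Submodule F M} (hS : StabE T S)
    (h : S ≤ LinearMap.ker φ) : S ≤ DD T φ := by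
  intro x hx
  rw [mem_DD]
  intro j
  have h1 : (T ^ j) x ∈ S := by
    have := hS.aeval (X ^ j) hx
    rwa [map_pow, aeval_X] at this
  exact h h1

/-- the `T`-stable subspace generated by a tuple -/
noncomputable def hull (T : M →ₗ[F] M) (y : Fin k → M) : Submodule F M := LinearMap.range (ev T y)

theorem stab_hull (T : M →ₗ[F] M) (y : Fin k → M) : StabE T (hull T y) := stab_range T y

theorem mem_hull (T : M →ₗ[F] M) (y : Fin k → M) (i : Fin k) : y i ∈ hull T y :=
  mem_range_ev T y i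

theorem hull_le {T : M →ₗ[F] M} {y : Fin k → M} {S : Submodule F M} (hS : StabE T S)
    (hy : ∀ i, y i ∈ S) : hull T y ≤ S := range_ev_le hS hy

theorem gen_iff_hull {T : M →ₗ[F] M} {y : Fin k → M} : GenE T y ↔ hull T y = ⊤ := by
  rw [gen_iff, hull, LinearMap.range_eq_top]

/-- the number of `k`-tuples generating the subspace `D` (it is `0` if `D` is not stable) -/
noncomputable def NS (T : M →ₗ[F] M) (D : Submodule F M) (k : ℕ) : ℕ :=
  Nat.card {y : Fin k → M // hull T y = D}

theorem NS_top (T : M →ₗ[F] M) (k : ℕ) : NS T ⊤ k = NE T k := by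
  unfold NS NE
  exact Nat.card_congr (Equiv.subtypeEquivRight fun y => gen_iff_hull.symm)

end dd

end Pool.Agent.MP_359fef_co.GL1
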